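import Pool.Agent.Q161.ESV.Stm2
import Pool.Agent.Q186.ESV.Act

/-!
# Project ESV, job ACT (by helper186)
-/

set_option autoImplicit false

namespace Pool.Agent.Q161.ESV

open Pool.Agent.Q186.ESV

theorem t_act : S_ACT := by
  intro F _ _ W _ _ hA
  obtain ⟨L, hLf, hLx⟩ := fix_step (F := F) (W := W) hA.stab hA.fin
  obtain ⟨K, hLK, hKf, hKn, hKnf, hKg⟩ := field_step F L
  have hfix : ∀ σ ∈ K.fixingSubgroup, ∀ w ∈ tors W, σ • w = w := fun σ hσ w hw =>
    hLx σ (IntermediateField.fixingSubgroup_antitone hLK hσ) w hw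
  have hfin : Finite (tors W) := hA.fin
  let hft : Fintype (tors W) := Fintype.ofFinite _
  let act := actK K hfix
  have hval : ∀ (σ : GF F) (v : tors W),
      ((AlgEquiv.restrictNormalHom K σ • v : tors W) : W) = σ • (v : W) :=
    fun σ v => actK_val K hfix σ v
  have hsur : ∀ g : K ≃ₐ[F] K, ∃ σ : GF F, AlgEquiv.restrictNormalHom K σ = g := fun g =>
    ⟨lf K g, lf_spec K g⟩
  refine ⟨K, inferInstance, hKnf, inferInstance, hKg, K.val, tors W, inferInstance, hft, act,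
    (tors W).subtype, ⟨?_, ?_, ?_⟩, ?_, ?_, ?_⟩
  · exact Subtype.val_injective
  · intro w
    exact ⟨fun h => ⟨⟨w, h⟩, rfl⟩, fun ⟨v, hv⟩ => hv ▸ v.2⟩
  · intro σ g hRs v
    have hr := rs_iff K σ g hRs
    rw [← hr]
    exact hval σ v
  · intro v
    exact Subtype.ext v.2
  · intro W0 hW0
    have hU1 : ∀ u ∈ W0.map (tors W).subtype, u + u = 0 := by
      rintro u ⟨v, hv, rfl⟩
      exact v.2
    have hU2 : ∀ (σ : GF F), ∀ u ∈ W0.map (tors W).subtype, σ • u ∈ W0.map (tors W).subtype := by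
      rintro σ u ⟨v, hv, rfl⟩
      exact ⟨AlgEquiv.restrictNormalHom K σ • v, hW0 _ v hv, hval σ v⟩
    obtain ⟨U', h1, h2, h3, h4⟩ := hA.ss _ hU1 hU2
    refine ⟨U'.comap (tors W).subtype, ?_, ?_⟩
    · intro g v hv
      obtain ⟨σ, rfl⟩ := hsur g
      show ((AlgEquiv.restrictNormalHom K σ • v : tors W) : W) ∈ U'
      rw [hval]
      exact h2 σ _ hv
    · constructor
      · rw [disjoint_iff, eq_bot_iff]
        rintro v ⟨hv1, hv2⟩
        have h5 : (v : W) ∈ W0.map (tors W).subtype ⊓ U' := ⟨⟨v, hv1, rfl⟩, hv2⟩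
        rw [h3] at h5
        exact Subtype.ext h5
      · rw [codisjoint_iff, eq_top_iff]
        intro v _
        obtain ⟨a, ⟨a', ha', rfl⟩, b, hb, hab⟩ := AddSubgroup.mem_sup.1 (h4 v v.2)
        refine AddSubgroup.mem_sup.2 ⟨a', ha', ⟨b, h1 b hb⟩, hb, ?_⟩
        exact Subtype.ext hab
  · intro v hv
    refine Subtype.ext (hA.noinv v v.2 fun σ => ?_)
    have := congrArg Subtype.val (hv (AlgEquiv.restrictNormalHom K σ))
    rw [hval] at this
    exact this

end Pool.Agent.Q161.ESV
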