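import Pool.Agent.Q161.ESV.Stm2

set_option autoImplicit false

namespace Pool.Agent.Q161.ESV

open NumberField IsDedekindDomain Finset

section

variable {F : Type} [Field F] [NumberField F] {W : Type} [AddCommGroup W] [DistribMulAction (GF F) W]

theorem cob_mem (hCHI : S_CHI) (hW : Adm F W) (B : ℕ) (D : F) (Q : W) : cob W D Q ∈ SelZ W B D := by
  obtain ⟨h1, -, -⟩ := hCHI F
  obtain ⟨hpm, hmul, -, L, hL, hLt⟩ := h1 D
  obtain ⟨L', hL', hst⟩ := hW.stab Q
  refine ⟨⟨fun σ τ => ?_, L ⊔ L', ?_, fun σ hσ => ?_⟩, ⟨fun l _ _ ψ => ⟨Q, fun σ _ => rfl⟩,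
    fun l _ _ ψ _ => ⟨Q, fun σ _ => rfl⟩⟩⟩
  · change chi D (σ * τ) • (σ * τ) • Q - Q = (chi D σ • σ • Q - Q) + chi D σ • σ • (chi D τ • τ • Q - Q)
    rw [hmul, mul_smul, mul_smul, smul_sub, smul_sub]
    have e : σ • (chi D τ • τ • Q) = chi D τ • σ • τ • Q := by
      rcases hpm τ with h | h <;> rw [h] <;> simp
    rw [e]
    abel
  · have := hL
    have := hL'
    exact IntermediateField.finiteDimensional_sup L L'
  · have h2 : σ ∈ L.fixingSubgroup := IntermediateField.fixingSubgroup_antitone le_sup_left hσ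
    have h3 : σ ∈ L'.fixingSubgroup := IntermediateField.fixingSubgroup_antitone le_sup_right hσ
    change chi D σ • σ • Q - Q = 0
    rw [hLt σ h2, hst σ h3, one_smul, sub_self]

theorem rpz (hCHI : S_CHI) : S_RPZ := by
  intro F _ _ W _ _ hW
  refine ⟨fun B D x hx => ?_, fun B D u hu => ?_, fun B B' D hBB hB' hfin => ?_⟩
  · obtain ⟨c, rfl⟩ := QuotientAddGroup.mk_surjective x
    have h1 : (QuotientAddGroup.mk (c + c) : Sel W B D) = 0 := hx
    rw [QuotientAddGroup.eq_zero_iff, AddSubgroup.mem_addSubgroupOf] at h1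
    obtain ⟨Q, hQ⟩ := h1
    obtain ⟨Q', hQ'⟩ := hW.div Q
    refine ⟨c - ⟨cob W D Q', cob_mem hCHI hW B D Q'⟩, fun σ => ?_, ?_⟩
    · have h2 : cob W D Q σ = (c : GF F → W) σ + (c : GF F → W) σ := congrFun hQ σ
      have h3 : cob W D Q σ = cob W D Q' σ + cob W D Q' σ := by
        rw [← hQ', map_add]
        rfl
      change ((c : GF F → W) σ - cob W D Q' σ) + ((c : GF F → W) σ - cob W D Q' σ) = 0
      have h4 := h2.symm.trans h3
      calc ((c : GF F → W) σ - cob W D Q' σ) + ((c : GF F → W) σ - cob W D Q' σ) =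
            ((c : GF F → W) σ + (c : GF F → W) σ) - (cob W D Q' σ + cob W D Q' σ) := by abel
        _ = 0 := by rw [h4, sub_self]
    · rw [QuotientAddGroup.eq]
      rw [AddSubgroup.mem_addSubgroupOf]
      refine ⟨Q', ?_⟩
      simp
  · obtain ⟨-, h2, -⟩ := hCHI F
    have h3 := h2 D u hu
    unfold sel2 Sel2 Sel
    have e1 : Z1 W (D * u ^ 2) = Z1 W D := by
      ext c
      change ((∀ σ τ, c (σ * τ) = c σ + chi (D * u ^ 2) σ • σ • c τ) ∧ Triv c) ↔
        ((∀ σ τ, c (σ * τ) = c σ + chi D σ • σ • c τ) ∧ Triv c)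
      rw [h3]
    have e2 : cob W (D * u ^ 2) = cob W D := by
      ext Q σ
      change chi (D * u ^ 2) σ • σ • Q - Q = chi D σ • σ • Q - Q
      rw [h3]
    have e3 : SelZ W B (D * u ^ 2) = SelZ W B D := by
      ext c
      constructor
      · rintro ⟨a, b⟩
        refine ⟨e1 ▸ a, ⟨fun l _ hl ψ => ?_, fun l _ hl ψ h => ?_⟩⟩
        · rw [← e2]
          exact b.ine l hl ψ
        · rw [← e2]
          rw [← h3] at h
          exact b.dec l hl ψ h
      · rintro ⟨a, b⟩
        refine ⟨e1.symm ▸ a, ⟨fun l _ hl ψ => ?_, fun l _ hl ψ h => ?_⟩⟩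
        · rw [e2]
          exact b.ine l hl ψ
        · rw [e2]
          rw [h3] at h
          exact b.dec l hl ψ h
    rw [e3, e2]
  · have hle : SelZ W B D ≤ SelZ W B' D := by
      rintro c ⟨a, b⟩
      refine ⟨a, ⟨fun l _ hl ψ => b.ine l (fun h => hl (h.trans hBB)) ψ, fun l _ hl ψ h =>
        b.dec l (fun h' => hl (h'.trans hBB)) ψ h⟩⟩
    let f : Sel W B D →+ Sel W B' D := QuotientAddGroup.map _ _ (AddSubgroup.inclusion hle) (by
      intro c hc
      rw [AddSubgroup.mem_comap, AddSubgroup.mem_addSubgroupOf]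
      rw [AddSubgroup.mem_addSubgroupOf] at hc
      exact hc)
    have hf : Function.Injective f := by
      rw [injective_iff_map_eq_zero]
      intro x hx
      obtain ⟨c, rfl⟩ := QuotientAddGroup.mk_surjective x
      have h1 : (QuotientAddGroup.mk (AddSubgroup.inclusion hle c) : Sel W B' D) = 0 := hx
      rw [QuotientAddGroup.eq_zero_iff, AddSubgroup.mem_addSubgroupOf] at h1
      rw [QuotientAddGroup.eq_zero_iff, AddSubgroup.mem_addSubgroupOf]
      exact h1
    let g : Sel2 W B D → Sel2 W B' D := fun x => ⟨f x.1, by rw [← map_add, x.2, map_zero]⟩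
    have hg : Function.Injective g := fun x y hxy => Subtype.ext (hf (congrArg Subtype.val hxy))
    exact ⟨Finite.of_injective g hg, Nat.card_le_card_of_injective g hg⟩

end

end Pool.Agent.Q161.ESV
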