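import Pool.Agent.Q161.ESV.Stm3

/-!
# Project ESV (helper161), part 5: an example
-/

set_option autoImplicit false

namespace Pool.Agent.Q161.ESV

/-- JOB EXA. The conditions can be satisfied.
Proof.  `f = X³ - X - 1` (discriminant `-23`), `r_0, r_1, r_2` its roots in `ℚ^a` (distinct), `π : GF ℚ → Perm (Fin 3)`, `σ (r_j) = r_(π σ j)`.  `Perm (Fin 3)` acts on
`Λ = {v ∈ ℤ³ | ∑ v = 0}` with the basis `(1, -1, 0), (0, 1, -1)`; so a homomorphism `Perm (Fin 3) → GL_2(ℤ) → GL_2(ℤ_2)` (for instance by explicit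
matrices for the six permutations, `decide`), `ρ` = the composition.  `cont`: `ρ` is trivial on the subgroup which fixes the roots (open).  `ss`, `noinv`: `f` is irreducible over `ℚ`, so the image of `π` is
transitive and contains a 3-cycle, whose matrix modulo 2 has no fixed vector except `0` in `𝔽_2²` and permutes the three nonzero vectors; so the only stable subspaces are `0` and
everything.  `unr`: `B = 2 * 3 * 23`: for `σ ∈ Ine ψ`, `τ` compatible, the `x_j = ψ r_j` are integral (`‖x_j‖ ≤ 1`), `∏ (x_i - x_j)² = -23` has norm one, so `‖x_i - x_j‖ = 1` for `i ≠ j`;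
`‖τ x_j - x_j‖ < 1` implies `τ x_j = x_j`, `σ r_j = r_j`, `ρ σ = 1`. -/
def S_EXA : Prop := ∃ ρ : GF ℚ →* GL (Fin 2) ℤ_[2], AdV ρ

end Pool.Agent.Q161.ESV
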