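import Pool.Agent.Q161.ESV.Fin
import Pool.Agent.Q161.ESV.Stm4
import Pool.Agent.Q161.ESB.All3
import Pool.Agent.Q161.ESJ.AllA
import Pool.Agent.Q162.ESV.CHI
import Pool.Agent.Q256.ESV.KDV
import Pool.Agent.Q254.ESV.FIB
import Pool.Agent.Q254.ESV.INC
import Pool.Agent.Q277.ESV.POW
import Pool.Agent.Q277.ESV.Base
import Pool.Agent.Q83.ESV.EXI
import Pool.Agent.Q110.ESV.LCT
import Pool.Agent.Q187.ESV.LCA
import Pool.Agent.Q144.ESV_LCB
import Pool.Agent.Q18.ESV.LOCV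
import Pool.Agent.Q158.ESV.CNTV
import Pool.Agent.Q68.ESV.WAD
import Pool.Agent.Q150.ESV.LAT
import Pool.Agent.Q151.ESV.NOL
import Pool.Agent.Q164.ESV.SLV
import Pool.Agent.Q153.ESV.RKM
import Pool.Agent.Q166.ESV.FDV
import Pool.Agent.Q161.ESV.Act
import Pool.Agent.Q161.ESV.Rpz
import Pool.Agent.Q161.ESV.Relv
import Pool.Agent.Q123.ESV.EXA

/-! # Project ESV: assembly -/

set_option autoImplicit false

namespace Pool.Agent.Q161.ESV

open NumberField Finset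

open Pool.Agent.Q161.ESB (mass wt)
open Pool.Agent.Q161.ESN (Twists AllTwists)

open scoped Classical

theorem t_chi : S_CHI := Pool.Agent.Q162.ESV.chi_
theorem t_kdv : S_KDV := Pool.Agent.Q256.ESV.kdv t_chi
theorem t_fib : S_FIB := Pool.Agent.Q254.ESV.fib t_chi
theorem t_pow : S_POW := Pool.Agent.Q277.ESV.pow_
theorem t_inc : S_INC := Pool.Agent.Q254.ESV.inc Pool.Agent.Q161.ESJ.t_inr
theorem t_exi : S_EXI := Pool.Agent.Q83.ESV.exi t_inc Pool.Agent.Q151.ESG.embw Pool.Agent.Q161.ESJ.t_cmp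
theorem t_lct : S_LCT := Pool.Agent.Q110.ESV.lct t_chi
theorem t_lca : S_LCA := Pool.Agent.Q187.ESV.lca t_chi t_exi t_lct
theorem t_lcb : S_LCB := Pool.Agent.Q144.ESV.lcb t_chi t_exi t_lct
theorem t_qav : S_QAV := Pool.Agent.Q277.ESV.qav Pool.Agent.Q161.ESM.t_suf
theorem t_qdv : S_QDV := Pool.Agent.Q277.ESV.qdv Pool.Agent.Q161.ESM.t_suf
theorem t_locv : S_LOCV := Pool.Agent.Q18.ESV.locv
theorem t_rpz : S_RPZ := rpz t_chi
theorem t_relv : S_RELV := relv Pool.Agent.Q161.ESN.t_zex Pool.Agent.Q161.ESN.t_frx t_qav t_qdv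
theorem t_exa : S_EXA := Pool.Agent.Q123.ESV.exa
theorem t_cntv : S_CNTV := Pool.Agent.Q158.ESV.cntv Pool.Agent.Q161.ESN.t_rpx t_relv t_locv Pool.Agent.Q161.ESB.t_mn
theorem t_wad : S_WAD := Pool.Agent.Q68.ESV.wad
theorem t_lat : S_LAT := Pool.Agent.Q150.ESV.lat_
theorem t_nol : S_NOL := Pool.Agent.Q151.ESV.nol
theorem t_slv : S_SLV := Pool.Agent.Q164.ESV.slv t_chi
theorem t_fdv : S_FDV := Pool.Agent.Q166.ESV.fdv t_lat t_nol t_slv
theorem t_rkm : S_RKM := Pool.Agent.Q153.ESV.rkm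

end Pool.Agent.Q161.ESV
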