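import Pool.Agent.Q161.ESB.Stm3

/-!
# Project ESV (helper161): Bloch-Kato Selmer groups of the quadratic twists of any 2-primary Galois module

GOAL.  `F` ANY number field, `W` a discrete module of `G_F = Gal(F^a/F)`, `W` divisible by 2, `W[2]` finite, semisimple and
without invariants, `W` unramified outside a finite set of primes (`Adm`); for instance `W = V/T` for a 2-adic representation
`V` with a stable lattice `T` such that `T/2T` is semisimple without invariants.  For `D ∈ F^*` let `W_D` be the twist of `W` by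
the character `χ_D` of `F(√D)`, and `Sel^B(W_D) ⊆ H¹(F, W_D)` the Selmer group with the Bloch-Kato conditions at all
primes not dividing `B` and no condition at the primes above `B`.  THEOREM: for all `B ≠ 0`, `k`, `M ≥ 1` there is a `C` such that
`∑_{D ∈ 𝒟} M^(ω(D)) #Sel^B(W_D)[2]^k ≤ C X (1 + log X)^(M-1)`
for all `X ≥ 1` and all sets `𝒟` of representatives of classes `D ∈ F^*/F^*²` of norm `≤ X`.
-/

set_option autoImplicit false

namespace Pool.Agent.Q161.ESV

open NumberField IsDedekindDomain Finset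

/-- the absolute Galois group -/
abbrev GF (F : Type) [Field F] := AlgebraicClosure F ≃ₐ[F] AlgebraicClosure F

section base

variable {F : Type} [Field F]

open Classical in
/-- the quadratic character of `F(√D)` -/
noncomputable def chi (D : F) (σ : GF F) : ℤ :=
  if ∀ s : AlgebraicClosure F, s ^ 2 = algebraMap F _ D → σ s = s then 1 else -1

/-- `f` is trivial on an open subgroup -/
def Triv {A : Type} [Zero A] (f : GF F → A) : Prop :=
  ∃ L : IntermediateField F (AlgebraicClosure F), FiniteDimensional F L ∧ ∀ σ ∈ L.fixingSubgroup, f σ = 0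

variable {l : ℕ} [Fact l.Prime]

/-- `σ` and the automorphism `τ` of the algebraic closure of `ℚ_l` are compatible -/
def Cpt (ψ : AlgebraicClosure F →+* PadicAlgCl l) (τ : PadicAlgCl l ≃ₐ[ℚ_[l]] PadicAlgCl l)
    (σ : GF F) : Prop := ∀ x, τ (ψ x) = ψ (σ x)

/-- the decomposition group of the prime given by `ψ` -/
def Dec (ψ : AlgebraicClosure F →+* PadicAlgCl l) : Set (GF F) := {σ | ∃ τ, Cpt ψ τ σ}

/-- the inertia group of the prime given by `ψ` -/
def Ine (ψ : AlgebraicClosure F →+* PadicAlgCl l) : Set (GF F) :=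
  {σ | ∃ τ, Cpt ψ τ σ ∧ ∀ x, ‖x‖ ≤ 1 → ‖τ x - x‖ < 1}

end base

section W

variable {F : Type} [Field F] (W : Type) [AddCommGroup W] [DistribMulAction (GF F) W]

variable (F) in
/-- the modules `W` of the theorem -/
structure Adm : Prop where
  stab : ∀ w : W, ∃ L : IntermediateField F (AlgebraicClosure F), FiniteDimensional F L ∧
    ∀ σ ∈ L.fixingSubgroup, σ • w = w
  div : ∀ w : W, ∃ u : W, u + u = w
  fin : {w : W | w + w = 0}.Finite
  noinv : ∀ w : W, w + w = 0 → (∀ σ : GF F, σ • w = w) → w = 0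
  ss : ∀ U : AddSubgroup W, (∀ u ∈ U, u + u = 0) → (∀ (σ : GF F), ∀ u ∈ U, σ • u ∈ U) →
    ∃ U' : AddSubgroup W, (∀ u ∈ U', u + u = 0) ∧ (∀ (σ : GF F), ∀ u ∈ U', σ • u ∈ U') ∧ U ⊓ U' = ⊥ ∧
      ∀ w : W, w + w = 0 → w ∈ U ⊔ U'
  unr : ∃ B : ℕ, B ≠ 0 ∧ ∀ (l : ℕ) [Fact l.Prime], ¬ l ∣ B →
    ∀ ψ : AlgebraicClosure F →+* PadicAlgCl l, ∀ σ ∈ Ine ψ, ∀ w : W, σ • w = w

/-- the continuous cocycles of the twist `W_D` -/
def Z1 (D : F) : AddSubgroup (GF F → W) where
  carrier := {c | (∀ σ τ, c (σ * τ) = c σ + chi D σ • σ • c τ) ∧ Triv c}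
  zero_mem' := by
    refine ⟨fun σ τ => ?_, ⊥, inferInstance, fun _ _ => rfl⟩
    simp
  add_mem' := by
    rintro a b ⟨ha, La, fa, ta⟩ ⟨hb, Lb, fb, tb⟩
    refine ⟨fun σ τ => ?_, La ⊔ Lb, ?_, fun σ hσ => ?_⟩
    · simp only [Pi.add_apply, ha σ τ, hb σ τ, smul_add]
      abel
    · have := fa
      have := fb
      exact IntermediateField.finiteDimensional_sup La Lb
    · have h1 : σ ∈ La.fixingSubgroup := IntermediateField.fixingSubgroup_antitone le_sup_left hσ
      have h2 : σ ∈ Lb.fixingSubgroup := IntermediateField.fixingSubgroup_antitone le_sup_right hσ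
      simp [Pi.add_apply, ta σ h1, tb σ h2]
  neg_mem' := by
    rintro a ⟨ha, La, fa, ta⟩
    refine ⟨fun σ τ => ?_, La, fa, fun σ hσ => ?_⟩
    · simp only [Pi.neg_apply, ha σ τ, smul_neg]
      abel
    · simp [Pi.neg_apply, ta σ hσ]

/-- the coboundary of `P` for the twist `W_D` -/
noncomputable def cob (D : F) : W →+ (GF F → W) where
  toFun P σ := chi D σ • σ • P - P
  map_zero' := by
    funext σ
    simp
  map_add' P Q := by
    funext σ
    simp only [Pi.add_apply, smul_add]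
    abel

/-- the local conditions of Bloch and Kato at the primes not dividing `B` -/
structure LocS (B : ℕ) (D : F) (c : GF F → W) : Prop where
  ine : ∀ (l : ℕ) [Fact l.Prime], ¬ l ∣ B → ∀ ψ : AlgebraicClosure F →+* PadicAlgCl l,
    ∃ P : W, ∀ σ ∈ Ine ψ, c σ = cob W D P σ
  dec : ∀ (l : ℕ) [Fact l.Prime], ¬ l ∣ B → ∀ ψ : AlgebraicClosure F →+* PadicAlgCl l,
    (∃ σ ∈ Ine ψ, chi D σ = -1) → ∃ P : W, ∀ σ ∈ Dec ψ, c σ = cob W D P σ

/-- the cocycles with the local conditions -/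
def SelZ (B : ℕ) (D : F) : AddSubgroup (GF F → W) where
  carrier := {c | c ∈ Z1 W D ∧ LocS W B D c}
  zero_mem' := by
    refine ⟨zero_mem _, ⟨fun l _ _ ψ => ⟨0, fun σ _ => ?_⟩, fun l _ _ ψ _ => ⟨0, fun σ _ => ?_⟩⟩⟩ <;>
      simp
  add_mem' := by
    rintro a b ⟨ha, ha'⟩ ⟨hb, hb'⟩
    refine ⟨add_mem ha hb, ⟨fun l _ hl ψ => ?_, fun l _ hl ψ h => ?_⟩⟩
    · obtain ⟨P, hP⟩ := ha'.ine l hl ψ
      obtain ⟨Q, hQ⟩ := hb'.ine l hl ψ
      exact ⟨P + Q, fun σ hσ => by simp [hP σ hσ, hQ σ hσ]⟩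
    · obtain ⟨P, hP⟩ := ha'.dec l hl ψ h
      obtain ⟨Q, hQ⟩ := hb'.dec l hl ψ h
      exact ⟨P + Q, fun σ hσ => by simp [hP σ hσ, hQ σ hσ]⟩
  neg_mem' := by
    rintro a ⟨ha, ha'⟩
    refine ⟨neg_mem ha, ⟨fun l _ hl ψ => ?_, fun l _ hl ψ h => ?_⟩⟩
    · obtain ⟨P, hP⟩ := ha'.ine l hl ψ
      exact ⟨-P, fun σ hσ => by simp [hP σ hσ]⟩
    · obtain ⟨P, hP⟩ := ha'.dec l hl ψ h
      exact ⟨-P, fun σ hσ => by simp [hP σ hσ]⟩

/-- the Selmer group of `W_D` with the conditions of Bloch and Kato at the primes not dividing `B` and no conditions at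
the primes above `B` -/
abbrev Sel (B : ℕ) (D : F) : Type := SelZ W B D ⧸ (cob W D).range.addSubgroupOf (SelZ W B D)

/-- the elements killed by two -/
abbrev Sel2 (B : ℕ) (D : F) : Type := {x : Sel W B D // x + x = 0}

/-- their number -/
noncomputable def sel2 (B : ℕ) (D : F) : ℕ := Nat.card (Sel2 W B D)

end W

end Pool.Agent.Q161.ESV
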