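import Pool.Agent.Q161.ESV.Def

/-!
# Project ESV, part 3: 2-adic representations

`ρ : G_F → GL_n(ℤ_2)` continuous, `T = ℤ_2^n`, `V = ℚ_2^n`, `W = V/T`.  `HV ρ B D` is the space of the classes in `H¹(F, V_D)` which
satisfy the condition of Bloch and Kato (trivial on the inertia group) at all primes not dividing `B`, and `rkV ρ B D` its
dimension.  For `B = 2` it contains the Bloch-Kato Selmer group `H¹_f(F, V_D)`.
-/

set_option autoImplicit false

namespace Pool.Agent.Q161.ESV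

open NumberField IsDedekindDomain Finset

section V

variable {F : Type} [Field F] {n : ℕ} (ρ : GF F →* GL (Fin n) ℤ_[2])

/-- the action of `σ` on `ℚ_2^n` -/
noncomputable def act (σ : GF F) : (Fin n → ℚ_[2]) →ₗ[ℚ_[2]] (Fin n → ℚ_[2]) :=
  Matrix.mulVecLin ((algebraMap ℤ_[2] ℚ_[2]).mapMatrix (ρ σ : Matrix (Fin n) (Fin n) ℤ_[2]))

/-- the action of `σ` on `𝔽_2^n` -/
noncomputable def act2 (σ : GF F) : (Fin n → ZMod 2) →ₗ[ZMod 2] (Fin n → ZMod 2) :=
  Matrix.mulVecLin ((PadicInt.toZMod (p := 2)).mapMatrix (ρ σ : Matrix (Fin n) (Fin n) ℤ_[2]))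

/-- the representations of the theorem -/
structure AdV : Prop where
  cont : Continuous ρ
  noinv : ∀ v : Fin n → ZMod 2, (∀ σ, act2 ρ σ v = v) → v = 0
  ss : ∀ U : Submodule (ZMod 2) (Fin n → ZMod 2), (∀ σ, ∀ u ∈ U, act2 ρ σ u ∈ U) →
    ∃ U' : Submodule (ZMod 2) (Fin n → ZMod 2), (∀ σ, ∀ u ∈ U', act2 ρ σ u ∈ U') ∧ IsCompl U U'
  unr : ∃ B : ℕ, B ≠ 0 ∧ ∀ (l : ℕ) [Fact l.Prime], ¬ l ∣ B →
    ∀ ψ : AlgebraicClosure F →+* PadicAlgCl l, ∀ σ ∈ Ine ψ, ρ σ = 1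

theorem act_one : act ρ 1 = LinearMap.id := by
  unfold act
  rw [map_one, Units.val_one, map_one, Matrix.mulVecLin_one]

theorem act_mul (σ τ : GF F) (v : Fin n → ℚ_[2]) : act ρ (σ * τ) v = act ρ σ (act ρ τ v) := by
  unfold act
  rw [map_mul, Units.val_mul, map_mul, Matrix.mulVecLin_mul]
  rfl

/-- the lattice `ℤ_2^n` -/
def lat (n : ℕ) : AddSubgroup (Fin n → ℚ_[2]) where
  carrier := {v | ∀ i, ‖v i‖ ≤ 1}
  zero_mem' := fun i => by simp
  add_mem' := fun {a b} ha hb i => (IsUltrametricDist.norm_add_le_max (a i) (b i)).trans (max_le (ha i) (hb i))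
  neg_mem' := fun {a} ha i => by simpa using ha i

theorem act_lat (σ : GF F) {v : Fin n → ℚ_[2]} (hv : v ∈ lat n) : act ρ σ v ∈ lat n := by
  have h : ∃ u : Fin n → ℤ_[2], v = fun i => algebraMap ℤ_[2] ℚ_[2] (u i) :=
    ⟨fun i => ⟨v i, hv i⟩, rfl⟩
  obtain ⟨u, rfl⟩ := h
  have e : act ρ σ (fun i => algebraMap ℤ_[2] ℚ_[2] (u i)) = fun i =>
      algebraMap ℤ_[2] ℚ_[2] (Matrix.mulVec (ρ σ : Matrix (Fin n) (Fin n) ℤ_[2]) u i) := by
    funext i
    simp only [act, Matrix.mulVecLin_apply, Matrix.mulVec, dotProduct, map_sum, map_mul,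
      RingHom.mapMatrix_apply, Matrix.map_apply]
  rw [e]
  exact fun i => PadicInt.norm_le_one _

/-- the module `W = V/T` -/
def WV (_ρ : GF F →* GL (Fin n) ℤ_[2]) : Type := (Fin n → ℚ_[2]) ⧸ lat n

noncomputable instance : AddCommGroup (WV ρ) :=
  inferInstanceAs (AddCommGroup ((Fin n → ℚ_[2]) ⧸ lat n))

/-- the projection `V → V/T` -/
noncomputable def mkW : (Fin n → ℚ_[2]) →+ WV ρ := QuotientAddGroup.mk' (lat n)

/-- the action of `σ` on `V/T` -/
noncomputable def actW (σ : GF F) : WV ρ →+ WV ρ :=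
  QuotientAddGroup.map (lat n) (lat n) (act ρ σ).toAddMonoidHom (fun _ hv => act_lat ρ σ hv)

theorem actW_mk (σ : GF F) (v : Fin n → ℚ_[2]) : actW ρ σ (mkW ρ v) = mkW ρ (act ρ σ v) := rfl

theorem mkW_surj : Function.Surjective (mkW ρ) := QuotientAddGroup.mk'_surjective _

theorem mkW_eq_zero {v : Fin n → ℚ_[2]} : mkW ρ v = 0 ↔ v ∈ lat n := QuotientAddGroup.eq_zero_iff v

noncomputable instance : DistribMulAction (GF F) (WV ρ) where
  smul σ w := actW ρ σ w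
  one_smul w := by
    obtain ⟨v, rfl⟩ := mkW_surj ρ w
    change actW ρ 1 (mkW ρ v) = _
    rw [actW_mk, act_one]
    rfl
  mul_smul σ τ w := by
    obtain ⟨v, rfl⟩ := mkW_surj ρ w
    change actW ρ (σ * τ) (mkW ρ v) = actW ρ σ (actW ρ τ (mkW ρ v))
    rw [actW_mk, actW_mk, actW_mk, act_mul]
  smul_zero σ := map_zero (actW ρ σ)
  smul_add σ := map_add (actW ρ σ)

theorem smul_mkW (σ : GF F) (v : Fin n → ℚ_[2]) : σ • mkW ρ v = mkW ρ (act ρ σ v) := rfl

/-- the continuous cocycles with values in `V_D` -/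
def Z1V (D : F) : Submodule ℚ_[2] (GF F → (Fin n → ℚ_[2])) where
  carrier := {c | (∀ σ τ, c (σ * τ) = c σ + chi D σ • act ρ σ (c τ)) ∧ Continuous c}
  zero_mem' := ⟨fun σ τ => by simp, continuous_const⟩
  add_mem' := by
    rintro a b ⟨ha, ha'⟩ ⟨hb, hb'⟩
    refine ⟨fun σ τ => ?_, ha'.add hb'⟩
    simp only [Pi.add_apply, ha σ τ, hb σ τ, map_add, smul_add]
    abel
  smul_mem' := by
    rintro x a ⟨ha, ha'⟩
    refine ⟨fun σ τ => ?_, continuous_const.smul ha'⟩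
    simp only [Pi.smul_apply, ha σ τ, map_smul, smul_add]
    rw [smul_comm x (chi D σ)]

/-- the coboundary of `P` -/
noncomputable def cobV (D : F) : (Fin n → ℚ_[2]) →ₗ[ℚ_[2]] (GF F → (Fin n → ℚ_[2])) where
  toFun P σ := chi D σ • act ρ σ P - P
  map_add' P Q := by
    funext σ
    simp only [Pi.add_apply, map_add, smul_add]
    abel
  map_smul' x P := by
    funext σ
    simp only [Pi.smul_apply, map_smul, RingHom.id_apply, smul_sub]
    rw [smul_comm x (chi D σ)]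

/-- the cocycles which satisfy the conditions of Bloch and Kato at the primes not dividing `B` -/
def SelV (B : ℕ) (D : F) : Submodule ℚ_[2] (GF F → (Fin n → ℚ_[2])) where
  carrier := {c | c ∈ Z1V ρ D ∧ ∀ (l : ℕ) [Fact l.Prime], ¬ l ∣ B →
    ∀ ψ : AlgebraicClosure F →+* PadicAlgCl l, ∃ P, ∀ σ ∈ Ine ψ, c σ = cobV ρ D P σ}
  zero_mem' := ⟨zero_mem _, fun l _ _ ψ => ⟨0, fun σ _ => by simp⟩⟩
  add_mem' := by
    rintro a b ⟨ha, ha'⟩ ⟨hb, hb'⟩
    refine ⟨add_mem ha hb, fun l _ hl ψ => ?_⟩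
    obtain ⟨P, hP⟩ := ha' l hl ψ
    obtain ⟨Q, hQ⟩ := hb' l hl ψ
    exact ⟨P + Q, fun σ hσ => by simp [hP σ hσ, hQ σ hσ]⟩
  smul_mem' := by
    rintro x a ⟨ha, ha'⟩
    refine ⟨Submodule.smul_mem _ x ha, fun l _ hl ψ => ?_⟩
    obtain ⟨P, hP⟩ := ha' l hl ψ
    exact ⟨x • P, fun σ hσ => by simp [hP σ hσ]⟩

/-- the classes in `H¹(F, V_D)` which satisfy the conditions of Bloch and Kato at the primes not dividing `B` -/
abbrev HV (B : ℕ) (D : F) : Type :=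
  SelV ρ B D ⧸ (LinearMap.range (cobV ρ D)).comap (SelV ρ B D).subtype

/-- the dimension over `ℚ_2` -/
noncomputable def rkV (B : ℕ) (D : F) : ℕ := Module.finrank ℚ_[2] (HV ρ B D)

end V

end Pool.Agent.Q161.ESV
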