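import Pool.Agent.Q161.ESV.Stm3
import Pool.Agent.Q161.ESB.FinS

/-! # Project ESV: the moments -/

set_option autoImplicit false

namespace Pool.Agent.Q161.ESV

open NumberField IsDedekindDomain Finset

open scoped Classical

open Pool.Agent.Q161.ESN (Twists oddNorm t_rep)
open Pool.Agent.Q161.ESB (MomS wt wt_le log_mul_le)

section sq

variable {K A : Type} [Field K]

/-- equal modulo squares -/
def SqE (Δ Δ' : A → K) : Prop := ∀ χ, IsSquare (Δ χ * Δ' χ)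

theorem SqE.refl (Δ : A → K) : SqE Δ Δ := fun χ => ⟨Δ χ, rfl⟩

theorem SqE.symm {Δ Δ' : A → K} (h : SqE Δ Δ') : SqE Δ' Δ := fun χ => by
  rw [mul_comm]
  exact h χ

theorem SqE.trans {Δ Δ' Δ'' : A → K} (h0 : ∀ χ, Δ' χ ≠ 0) (h : SqE Δ Δ') (h' : SqE Δ' Δ'') :
    SqE Δ Δ'' := fun χ => by
  obtain ⟨a, ha⟩ := h χ
  obtain ⟨b, hb⟩ := h' χ
  refine ⟨a * b / Δ' χ, ?_⟩
  have := h0 χ
  field_simp
  calc Δ χ * Δ'' χ * Δ' χ ^ 2 = (Δ χ * Δ' χ) * (Δ' χ * Δ'' χ) := by ring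
    _ = _ := by rw [ha, hb]; ring

end sq

variable (hACT : S_ACT) (hKDV : S_KDV) (hFIB : S_FIB) (hRPZ : S_RPZ) (hLCA : S_LCA) (hLCB : S_LCB)
  (hCNTV : S_CNTV)

include hACT hKDV hFIB hRPZ hLCA hLCB hCNTV in
/-- the bound for the twists by elements of `𝓞 F` -/
theorem coreO {F : Type} [Field F] [NumberField F] (W : Type) [AddCommGroup W] [DistribMulAction (GF F) W]
    (hW : Adm F W) : ∃ B1 : ℕ, B1 ≠ 0 ∧ ∀ B : ℕ, B1 ∣ B → B ≠ 0 → ∀ M : ℕ, 1 ≤ M → ∃ C : ℝ, 0 < C ∧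
    ∀ X : ℝ, 1 ≤ X → ∀ 𝒟 : Finset (𝓞 F),
      (∀ D ∈ 𝒟, SqF B D ∧ ((Ideal.absNorm (Ideal.span {D}) : ℕ) : ℝ) ≤ X) →
      (∀ D ∈ 𝒟, ∀ D' ∈ 𝒟, D ≠ D' → ¬ IsSquare ((D : F) * (D' : F))) →
      ∀ 𝒳 : (D : 𝓞 F) → Finset (Sel2 W B (D : F)),
        ((∑ D ∈ 𝒟, M ^ om D * (𝒳 D).card : ℕ) : ℝ) ≤ C * X * (1 + Real.log X) ^ (M - 1) := by
  obtain ⟨K, _, _, _, _, e, V, _, _, _, i, hSt, h2V, hsemi, hno⟩ := hACT F W hW
  obtain ⟨Ba, hBa, hA⟩ := hLCA F K W V e i hW hSt h2V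
  obtain ⟨Bb, hBb, hB⟩ := hLCB F K W V e i hW hSt h2V
  obtain ⟨N, hN, hF⟩ := hFIB F K W V e i hSt h2V
  refine ⟨Ba * Bb, mul_ne_zero hBa hBb, fun B hBd hB0 M hM => ?_⟩
  have hBda : Ba ∣ B := (dvd_mul_right _ _).trans hBd
  have hBdb : Bb ∣ B := (dvd_mul_left _ _).trans hBd
  obtain ⟨C0, hC0, hmain⟩ := hCNTV M F K V hM h2V hsemi hno B
    {p | SqF B p.1 ∧ ∃ c ∈ SelZ W B (p.1 : F), (∀ σ, c σ + c σ = 0) ∧ Kum e i c p.2} hB0
    (fun p hp => by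
      obtain ⟨hsq, c, hc, hc2, hk⟩ := hp
      exact hA B hBda hB0 p.1 hsq c hc hc2 p.2 hk)
    (fun p hp p' hp' => by
      obtain ⟨hsq, c, hc, hc2, hk⟩ := hp
      obtain ⟨hsq', c', hc', hc2', hk'⟩ := hp'
      exact hB B hBdb hB0 p.1 p'.1 hsq hsq' c hc hc2 c' hc' hc2' p.2 p'.2 hk hk')
  refine ⟨N * C0, by positivity, fun X hX 𝒟 h𝒟 hns 𝒳 => ?_⟩
  have hrep : ∀ (D : 𝓞 F) (x : Sel2 W B (D : F)), ∃ (c : SelZ W B (D : F)) (Δ : (V →+ ZMod 2) → K),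
      (∀ σ, (c : GF F → W) σ + (c : GF F → W) σ = 0) ∧
      (QuotientAddGroup.mk c : Sel W B (D : F)) = x.1 ∧ Kum e i (c : GF F → W) Δ := by
    intro D x
    obtain ⟨c, hc1, hc2⟩ := (hRPZ F W hW).1 B (D : F) x.1 x.2
    obtain ⟨Δ, hΔ⟩ := hKDV F K W V e i hSt h2V (D : F) c c.2.1 hc1
    exact ⟨c, Δ, hc1, hc2, hΔ⟩
  choose c Δ hc2 hcx hk using hrep
  have hne : ∀ (D : 𝓞 F) (x : Sel2 W B (D : F)) (χ : V →+ ZMod 2), Δ D x χ ≠ 0 := fun D x => (hk D x).ne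
  let st : (D : 𝓞 F) → Setoid (Sel2 W B (D : F)) := fun D =>
    { r := fun x y => SqE (Δ D x) (Δ D y)
      iseqv := ⟨fun x => SqE.refl _, fun h => h.symm, fun {x y z} h h' => h.trans (hne D y) h'⟩ }
  let g : (D : 𝓞 F) → Sel2 W B (D : F) → ((V →+ ZMod 2) → K) := fun D x =>
    Δ D (Quotient.mk (st D) x).out
  have hg1 : ∀ (D : 𝓞 F) (x : Sel2 W B (D : F)), SqE (g D x) (Δ D x) := fun D x =>
    Quotient.mk_out (s := st D) x
  have hg2 : ∀ (D : 𝓞 F) (x y : Sel2 W B (D : F)), SqE (g D x) (g D y) → g D x = g D y := by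
    intro D x y h
    have h1 : SqE (Δ D x) (Δ D y) :=
      ((hg1 D x).symm.trans (fun χ => hne D _ χ) h).trans (fun χ => hne D _ χ) (hg1 D y)
    have h2 : Quotient.mk (st D) x = Quotient.mk (st D) y := Quotient.sound (s := st D) h1
    simp only [g, h2]
  have hgS : ∀ (D : 𝓞 F) (x : Sel2 W B (D : F)), Kum e i (c D (Quotient.mk (st D) x).out) (g D x) :=
    fun D x => hk D _
  -- the fibres
  have hfib : ∀ D : 𝓞 F, (𝒳 D).card ≤ N * ((𝒳 D).image (g D)).card := by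
    intro D
    refine card_le_mul_card_image _ N fun a _ => ?_
    set S := (𝒳 D).filter (fun x => g D x = a) with hS
    have hinj : Function.Injective (fun x : Sel2 W B (D : F) => (c D x : GF F → W)) := by
      intro x y hxy
      have h1 : c D x = c D y := Subtype.ext hxy
      apply Subtype.ext
      rw [← hcx D x, ← hcx D y, h1]
    have hcard : S.card = (S.image (fun x => (c D x : GF F → W))).card :=
      (card_image_of_injective _ hinj).symm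
    rw [hcard]
    let Δ' : (GF F → W) → (V →+ ZMod 2) → K := fun c' =>
      if h : ∃ x : Sel2 W B (D : F), (c D x : GF F → W) = c' then Δ D h.choose else fun _ => 0
    have hΔ' : ∀ x : Sel2 W B (D : F), Δ' (c D x : GF F → W) = Δ D x := by
      intro x
      have h : ∃ y : Sel2 W B (D : F), (c D y : GF F → W) = c D x := ⟨x, rfl⟩
      have h1 : h.choose = x := hinj h.choose_spec
      simp only [Δ', dif_pos h]
      rw [h1]
    refine hF (D : F) _ Δ' (fun c' hc' => ?_) (fun c' hc' c'' hc'' => ?_)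
    · obtain ⟨x, hx, rfl⟩ := mem_image.1 hc'
      refine ⟨(c D x).2.1, hc2 D x, ?_⟩
      rw [hΔ' x]
      exact hk D x
    · obtain ⟨x, hx, rfl⟩ := mem_image.1 hc'
      obtain ⟨y, hy, rfl⟩ := mem_image.1 hc''
      rw [hΔ' x, hΔ' y]
      have hx' := (mem_filter.1 hx).2
      have hy' := (mem_filter.1 hy).2
      have h3 : SqE (g D x) (Δ D y) := by
        rw [hx', ← hy']
        exact hg1 D y
      exact (hg1 D x).symm.trans (fun χ => hne D _ χ) h3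
  -- the pairs
  obtain ⟨𝒯, h𝒯⟩ : ∃ 𝒯 : Finset (𝓞 F × ((V →+ ZMod 2) → K)),
    𝒯 = 𝒟.biUnion (fun D => ({D} : Finset (𝓞 F)) ×ˢ ((𝒳 D).image (g D))) := ⟨_, rfl⟩
  have hmem : ∀ p ∈ 𝒯, p.1 ∈ 𝒟 ∧ ∃ x ∈ 𝒳 p.1, g p.1 x = p.2 := by
    intro p hp
    rw [h𝒯, mem_biUnion] at hp
    obtain ⟨D, hD, hp⟩ := hp
    rw [mem_product, mem_singleton, mem_image] at hp
    obtain ⟨h1, x, hx, h2⟩ := hp
    rcases p with ⟨D', δ⟩
    change D' = D at h1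
    subst h1
    exact ⟨hD, x, hx, h2⟩
  have h1 := hmain 𝒯 X hX (fun p hp => by
    obtain ⟨hD, x, hx, hxp⟩ := hmem p hp
    refine ⟨⟨(h𝒟 p.1 hD).1, c p.1 (Quotient.mk (st p.1) x).out, (c p.1 _).2, hc2 p.1 _, ?_⟩, (h𝒟 p.1 hD).2⟩
    rw [← hxp]
    exact hgS p.1 x) (fun p hp p' hp' hsq hΔ => by
    obtain ⟨hD, x, hx, hxp⟩ := hmem p hp
    obtain ⟨hD', x', hx', hxp'⟩ := hmem p' hp'
    rcases p with ⟨D, δ⟩
    rcases p' with ⟨D', δ'⟩
    change D ∈ 𝒟 at hD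
    change D' ∈ 𝒟 at hD'
    have hDD : D = D' := by
      by_contra hne'
      exact hns D hD D' hD' hne' hsq
    subst hDD
    change g D x = δ at hxp
    change g D x' = δ' at hxp'
    have h3 : g D x = g D x' := hg2 D x x' (by
      rw [hxp, hxp']
      exact hΔ)
    rw [← hxp, ← hxp', h3])
  have h2 : ∑ p ∈ 𝒯, M ^ om p.1 = ∑ D ∈ 𝒟, M ^ om D * ((𝒳 D).image (g D)).card := by
    rw [h𝒯, sum_biUnion]
    · refine sum_congr rfl fun D _ => ?_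
      rw [sum_product, sum_singleton]
      change ∑ _y ∈ (𝒳 D).image (g D), M ^ om D = _
      rw [sum_const, smul_eq_mul, mul_comm]
    · intro D _ D' _ hne'
      rw [Function.onFun, disjoint_left]
      intro p hp hp'
      rw [mem_product, mem_singleton] at hp hp'
      exact hne' (hp.1.symm.trans hp'.1)
  have h3 : ∑ D ∈ 𝒟, M ^ om D * (𝒳 D).card ≤ N * ∑ p ∈ 𝒯, M ^ om p.1 := by
    rw [h2, mul_sum]
    refine sum_le_sum fun D _ => ?_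
    calc M ^ om D * (𝒳 D).card ≤ M ^ om D * (N * ((𝒳 D).image (g D)).card) :=
          Nat.mul_le_mul_left _ (hfib D)
      _ = _ := by ring
  calc ((∑ D ∈ 𝒟, M ^ om D * (𝒳 D).card : ℕ) : ℝ) ≤ ((N * ∑ p ∈ 𝒯, M ^ om p.1 : ℕ) : ℝ) := by
        exact_mod_cast h3
    _ = N * ((∑ p ∈ 𝒯, M ^ om p.1 : ℕ) : ℝ) := by push_cast; rfl
    _ ≤ N * (C0 * X * (1 + Real.log X) ^ (M - 1)) := mul_le_mul_of_nonneg_left h1 (Nat.cast_nonneg _)
    _ = _ := by ring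

include hACT hKDV hFIB hRPZ hLCA hLCB hCNTV in
/-- the groups are finite -/
theorem finO {F : Type} [Field F] [NumberField F] (W : Type) [AddCommGroup W] [DistribMulAction (GF F) W]
    (hW : Adm F W) : ∃ B1 : ℕ, B1 ≠ 0 ∧ ∀ B : ℕ, B1 ∣ B → B ≠ 0 → ∀ D : 𝓞 F, SqF B D →
    Finite (Sel2 W B (D : F)) := by
  obtain ⟨B1, hB1, h⟩ := coreO hACT hKDV hFIB hRPZ hLCA hLCB hCNTV W hW
  refine ⟨B1, hB1, fun B hBd hB0 D hD => ?_⟩
  obtain ⟨C, hC, hb⟩ := h B hBd hB0 1 le_rfl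
  by_contra hinf
  rw [not_finite_iff_infinite] at hinf
  set X : ℝ := max 1 ((Ideal.absNorm (Ideal.span {D}) : ℕ) : ℝ) with hX
  obtain ⟨S, hS⟩ := Infinite.exists_subset_card_eq (Sel2 W B (D : F)) (⌊C * X⌋₊ + 1)
  have h1 := hb X (le_max_left _ _) {D} (fun E hE => by
    rw [mem_singleton.1 hE]
    exact ⟨hD, le_max_right _ _⟩) (fun E hE E' hE' hne => by
    rw [mem_singleton.1 hE, mem_singleton.1 hE'] at hne
    exact absurd rfl hne) (fun E => if hE : E = D then hE ▸ S else ∅)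
  rw [sum_singleton, dif_pos rfl] at h1
  simp only [one_pow, one_mul, Nat.sub_self, pow_zero, mul_one] at h1
  rw [hS] at h1
  have h2 := Nat.lt_floor_add_one (C * X)
  push_cast at h1
  linarith

variable (hPOW : S_POW)

include hACT hKDV hFIB hRPZ hLCA hLCB hCNTV in
/-- the weighted sums over all twists, `k = 1` -/
theorem oneW {F : Type} [Field F] [NumberField F] (W : Type) [AddCommGroup W] [DistribMulAction (GF F) W]
    (hW : Adm F W) (B : ℕ) (hB : B ≠ 0) : (∀ D : F, D ≠ 0 → Finite (Sel2 W B D)) ∧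
    ∀ M : ℕ, 1 ≤ M → ∃ C : ℝ, 0 < C ∧ ∀ X : ℝ, 1 ≤ X → ∀ 𝒟 : Finset F, Twists X 𝒟 →
      ∑ D ∈ 𝒟, (M : ℝ) ^ wt D * (sel2 W B D : ℝ) ≤ C * X * (1 + Real.log X) ^ (M - 1) := by
  obtain ⟨B1, hB1, h1⟩ := coreO hACT hKDV hFIB hRPZ hLCA hLCB hCNTV W hW
  obtain ⟨B2, hB2, h2⟩ := finO hACT hKDV hFIB hRPZ hLCA hLCB hCNTV W hW
  obtain ⟨B3, C3, hB3, hC3, hrep⟩ := t_rep F
  obtain ⟨-, hsqr, hmono⟩ := hRPZ F W hW
  obtain ⟨BB, hBB⟩ : ∃ BB, BB = B * B1 * B2 * B3 := ⟨_, rfl⟩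
  have hBB0 : BB ≠ 0 := by
    rw [hBB]
    exact mul_ne_zero (mul_ne_zero (mul_ne_zero hB hB1) hB2) hB3
  have d0 : B ∣ BB := by rw [hBB]; exact ((dvd_mul_right _ _).mul_right _).mul_right _
  have d1 : B1 ∣ BB := by rw [hBB]; exact ((dvd_mul_left _ _).mul_right _).mul_right _
  have d2 : B2 ∣ BB := by rw [hBB]; exact (dvd_mul_left _ _).mul_right _
  have d3 : B3 ∣ BB := by rw [hBB]; exact dvd_mul_left _ _
  -- finiteness, and the number for the representative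
  have hfin : ∀ (D : F) (E : 𝓞 F) (s : F), s ≠ 0 → (E : F) = D * s ^ 2 → SqF B3 E →
      Finite (Sel2 W B D) ∧ sel2 W B D ≤ sel2 W BB (E : F) := by
    intro D E s hs hE hsq
    have h3 : Finite (Sel2 W BB (E : F)) := h2 BB d2 hBB0 E (hsq.mono d3)
    obtain ⟨h4, h5⟩ := hmono B BB (E : F) d0 hBB0 h3
    have h6 : sel2 W B (E : F) = sel2 W B D := by rw [hE, hsqr B D s hs]
    refine ⟨?_, h6 ▸ h5⟩
    have h7 : sel2 W B (E : F) ≠ 0 := by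
      have : Nonempty (Sel2 W B (E : F)) := ⟨⟨0, by simp⟩⟩
      exact Nat.card_pos.ne'
    rw [h6] at h7
    exact Nat.finite_of_card_ne_zero h7
  refine ⟨fun D hD => ?_, fun M hM => ?_⟩
  · obtain ⟨E, s, hs, hE, hsq, -⟩ := hrep D hD
    exact (hfin D E s hs hE hsq).1
  obtain ⟨C0, hC0, hmain⟩ := h1 BB d1 hBB0 M hM
  let r : F → 𝓞 F := fun D => if hD : D ≠ 0 then (hrep D hD).choose else 0
  have hr : ∀ D : F, D ≠ 0 → ∃ s : F, s ≠ 0 ∧ (r D : F) = D * s ^ 2 ∧ SqF B3 (r D) ∧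
      ((Ideal.absNorm (Ideal.span {r D}) : ℕ) : ℝ) ≤ C3 * (oddNorm D : ℝ) := by
    intro D hD
    simp only [r, dif_pos hD]
    exact (hrep D hD).choose_spec
  have hlog : 0 ≤ Real.log (max C3 1) := Real.log_nonneg (le_max_right _ _)
  refine ⟨C0 * max C3 1 * (1 + Real.log (max C3 1)) ^ (M - 1), by positivity, fun X hX 𝒟 h𝒟 => ?_⟩
  have hrsq : ∀ D ∈ 𝒟, ∀ D' ∈ 𝒟, D ≠ D' → ¬ IsSquare ((r D : F) * (r D' : F)) := by
    intro D hD D' hD' hne hsq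
    obtain ⟨s, hs, hDs, -⟩ := hr D (h𝒟.ne D hD)
    obtain ⟨s', hs', hDs', -⟩ := hr D' (h𝒟.ne D' hD')
    obtain ⟨q, hq⟩ := hsq
    apply h𝒟.dist D hD D' hD' hne
    refine ⟨q / (s * s'), ?_⟩
    rw [hDs, hDs'] at hq
    field_simp
    linear_combination hq
  have hrinj : Set.InjOn r (𝒟 : Set F) := by
    intro D hD D' hD' hrr
    by_contra hne
    apply hrsq D hD D' hD' hne
    rw [hrr]
    exact ⟨_, rfl⟩
  have hX1 : (1 : ℝ) ≤ max C3 1 * X := by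
    calc (1 : ℝ) = 1 * 1 := (one_mul 1).symm
      _ ≤ max C3 1 * X := mul_le_mul (le_max_right _ _) hX zero_le_one (by positivity)
  have hF := hmain (max C3 1 * X) hX1 (𝒟.image r) (by
    intro E hE
    obtain ⟨D, hD, rfl⟩ := mem_image.1 hE
    obtain ⟨s, hs, hDs, hsq, hle⟩ := hr D (h𝒟.ne D hD)
    refine ⟨hsq.mono d3, hle.trans ?_⟩
    exact mul_le_mul (le_max_left _ _) (h𝒟.norm D hD) (Nat.cast_nonneg _) (by positivity)) (by
    intro E hE E' hE' hne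
    obtain ⟨D, hD, rfl⟩ := mem_image.1 hE
    obtain ⟨D', hD', rfl⟩ := mem_image.1 hE'
    exact hrsq D hD D' hD' fun h => hne (congrArg r h))
    (fun E => if h : Finite (Sel2 W BB (E : F)) then (@Finset.univ _ (@Fintype.ofFinite _ h)) else ∅)
  have hlX := Real.log_nonneg hX
  have h9 : (1 + Real.log (max C3 1 * X)) ^ (M - 1) ≤
      (1 + Real.log (max C3 1)) ^ (M - 1) * (1 + Real.log X) ^ (M - 1) := by
    rw [← mul_pow]
    refine pow_le_pow_left₀ ?_ (log_mul_le (le_max_right _ _) hX) _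
    have : 0 ≤ Real.log (max C3 1 * X) := Real.log_nonneg hX1
    linarith
  have h10 : C0 * (max C3 1 * X) * (1 + Real.log (max C3 1 * X)) ^ (M - 1) ≤
      C0 * max C3 1 * (1 + Real.log (max C3 1)) ^ (M - 1) * X * (1 + Real.log X) ^ (M - 1) := by
    have h11 : (0 : ℝ) ≤ C0 * (max C3 1 * X) := by positivity
    calc C0 * (max C3 1 * X) * (1 + Real.log (max C3 1 * X)) ^ (M - 1) ≤ C0 * (max C3 1 * X) *
          ((1 + Real.log (max C3 1)) ^ (M - 1) * (1 + Real.log X) ^ (M - 1)) :=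
          mul_le_mul_of_nonneg_left h9 h11
      _ = _ := by ring
  refine le_trans ?_ (le_trans hF h10)
  have h12 : ∑ D ∈ 𝒟, (M : ℝ) ^ wt D * (sel2 W B D : ℝ) =
      ((∑ D ∈ 𝒟, M ^ wt D * sel2 W B D : ℕ) : ℝ) := by push_cast; rfl
  rw [h12, Nat.cast_le, sum_image hrinj]
  refine sum_le_sum fun D hD => ?_
  obtain ⟨s, hs, hDs, hsq, -⟩ := hr D (h𝒟.ne D hD)
  refine Nat.mul_le_mul (Nat.pow_le_pow_right hM (wt_le hs hDs hsq.1)) ?_
  have h13 : Finite (Sel2 W BB (r D : F)) := h2 BB d2 hBB0 (r D) (hsq.mono d3)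
  rw [dif_pos h13]
  refine (hfin D (r D) s hs hDs hsq).2.trans (le_of_eq ?_)
  rw [sel2, @Nat.card_eq_fintype_card _ (@Fintype.ofFinite _ h13)]
  rfl

include hACT hKDV hFIB hRPZ hLCA hLCB hCNTV hPOW in
/-- all moments -/
theorem momV {F : Type} [Field F] [NumberField F] (W : Type) [AddCommGroup W] [DistribMulAction (GF F) W]
    (hW : Adm F W) (B : ℕ) (hB : B ≠ 0) : MomS (fun D : F => (sel2 W B D : ℝ)) := by
  intro M hM k
  obtain ⟨hWk, hle⟩ := hPOW F W k hW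
  obtain ⟨hfin, h⟩ := oneW hACT hKDV hFIB hRPZ hLCA hLCB hCNTV (Fin k → W) hWk B hB
  obtain ⟨C, hC, h1⟩ := h M hM
  refine ⟨C, hC, fun X hX 𝒟 h𝒟 => le_trans (sum_le_sum fun D hD => ?_) (h1 X hX 𝒟 h𝒟)⟩
  refine mul_le_mul_of_nonneg_left ?_ (by positivity)
  change (sel2 W B D : ℝ) ^ k ≤ (sel2 (Fin k → W) B D : ℝ)
  exact_mod_cast hle B D (hfin D (h𝒟.ne D hD))

variable (hFDV : S_FDV) (hRKM : S_RKM) (hWAD : S_WAD)

include hACT hKDV hFIB hRPZ hLCA hLCB hCNTV hPOW hFDV hRKM hWAD in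
/-- the moments of the dimensions -/
theorem momR {F : Type} [Field F] [NumberField F] {n : ℕ} (ρ : GF F →* GL (Fin n) ℤ_[2]) (hρ : AdV ρ)
    (B : ℕ) (hB : B ≠ 0) : (∀ D : F, D ≠ 0 → FiniteDimensional ℚ_[2] (HV ρ B D)) ∧
      MomS (fun D : F => (2 : ℝ) ^ rkV ρ B D) := by
  obtain ⟨B1, hB1, h1⟩ := hFDV F n ρ hρ
  have hW := hWAD F n ρ hρ
  have hBB : B * B1 ≠ 0 := mul_ne_zero hB hB1
  have h2 : ∀ D : F, D ≠ 0 → FiniteDimensional ℚ_[2] (HV ρ B D) ∧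
      2 ^ rkV ρ B D ≤ sel2 (WV ρ) (B * B1) D := by
    intro D hD
    have h3 : Finite (Sel2 (WV ρ) (B * B1) D) :=
      (oneW hACT hKDV hFIB hRPZ hLCA hLCB hCNTV (WV ρ) hW (B * B1) hBB).1 D hD
    obtain ⟨h4, h5⟩ := h1 (B * B1) (dvd_mul_left _ _) hBB D h3
    obtain ⟨h6, h7⟩ := hRKM F n ρ B (B * B1) D (dvd_mul_right _ _) hBB h4
    exact ⟨h6, (Nat.pow_le_pow_right two_pos h7).trans h5⟩
  refine ⟨fun D hD => (h2 D hD).1, fun M hM k => ?_⟩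
  obtain ⟨C, hC, h3⟩ := momV hACT hKDV hFIB hRPZ hLCA hLCB hCNTV hPOW (WV ρ) hW (B * B1) hBB M hM k
  refine ⟨C, hC, fun X hX 𝒟 h𝒟 => le_trans (sum_le_sum fun D hD => ?_) (h3 X hX 𝒟 h𝒟)⟩
  refine mul_le_mul_of_nonneg_left (pow_le_pow_left₀ (by positivity) ?_ k) (by positivity)
  have h4 := (h2 D (h𝒟.ne D hD)).2
  have h5 : ((2 ^ rkV ρ B D : ℕ) : ℝ) ≤ (sel2 (WV ρ) (B * B1) D : ℝ) := by exact_mod_cast h4
  simpa using h5

end Pool.Agent.Q161.ESV
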