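import Pool.Agent.Q161.ESB.Stm3

/-!
# Project ESV (helper161), part 1: the sieve side, for a general module `V`

`K/F` number fields, `K` Galois over `ℚ`, `V` a finite module of `Gal(K/F)`, `2 V = 0`, semisimple, without invariants.
`Δ χ ∈ K^*`, `χ` a linear form on `V`, are the Kummer data of a class in `H¹(F, V)` (a Selmer element of the twist by `D`).  At a
prime `w` with `D ∈ w` the parity of the valuations of the `Δ χ` is `χ(t)` for a `t ∈ V`, the type of `w`.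

Everything is parallel to `Pool/Agent/Q161/ESB/Stm3.lean` and `Pool/Agent/Q161/ESN/Stm3.lean` (there `V` = functions on embeddings, the
`ι α_c` play the role of the `Δ χ`); `S_ZEX`, `S_SUF`, `S_RPX`, `S_FRX`, `S_MN` (of ESB) are proved.
-/

set_option autoImplicit false

namespace Pool.Agent.Q161.ESV

open NumberField IsDedekindDomain Finset
open Pool.Agent.Q51.EL (Abv Par)

export Pool.Agent.Q161.ESM (QR S_SUF)
export Pool.Agent.Q161.ESN (Nice iO Ov Fb Mv Eqv Rp SqF S_ZEX S_RPX S_FRX)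
export Pool.Agent.Q161.ESB (Semi LocB S_MN om)

section K

variable {F K : Type} [Field F] [NumberField F] [Field K] [NumberField K] [Algebra F K]
  {V : Type} [AddCommGroup V] [DistribMulAction (K ≃ₐ[F] K) V]

/-- the linear form `v ↦ χ (g v)` -/
def tw (g : K ≃ₐ[F] K) (χ : V →+ ZMod 2) : V →+ ZMod 2 :=
  χ.comp (DistribSMul.toAddMonoidHom V g)

/-- the prime `w` has the type `t` -/
def TyV (w : HeightOneSpectrum (𝓞 K)) (Δ : (V →+ ZMod 2) → K) (t : V) : Prop :=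
  ∀ χ : V →+ ZMod 2, Par w (Δ χ) (χ t).val

/-- Kummer data which satisfy the local conditions for the twist by `D` at the primes not dividing `B` -/
structure Kd (B : ℕ) (D : 𝓞 F) (Δ : (V →+ ZMod 2) → K) : Prop where
  ne : ∀ χ, Δ χ ≠ 0
  eqv : ∀ (g : K ≃ₐ[F] K) (χ : V →+ ZMod 2), g (Δ (tw g χ)) = Δ χ
  sq : SqF B D
  even : ∀ l : ℕ, l.Prime → ¬ l ∣ B → ∀ w : HeightOneSpectrum (𝓞 K), Abv w l → iO F K D ∉ w.asIdeal →
    ∀ χ, Par w (Δ χ) 0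
  odd : ∀ l : ℕ, l.Prime → ¬ l ∣ B → ∀ w : HeightOneSpectrum (𝓞 K), Abv w l → iO F K D ∈ w.asIdeal →
    ∃ t : V, TyV w Δ t ∧ ∀ φ : K ≃ₐ[F] K, Fb w l φ → φ • t = t

/-- the relative local condition for two Selmer elements -/
def Rl (B : ℕ) (D D' : 𝓞 F) (Δ Δ' : (V →+ ZMod 2) → K) : Prop :=
  ∀ l : ℕ, l.Prime → ¬ l ∣ B → ∀ w : HeightOneSpectrum (𝓞 K), Abv w l → iO F K D ∈ w.asIdeal →
    iO F K D' ∈ w.asIdeal → ∀ t : V, TyV w Δ t → TyV w Δ' t →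
    ∀ φ : K ≃ₐ[F] K, Fb w l φ → ∀ χ : V →+ ZMod 2, tw φ χ = χ →
      QR w l (Δ χ * Δ' χ * (if χ t = 1 then algebraMap F K ((D : F) * (D' : F)) else 1))

/-- `Z` belongs to the Kummer data `Δ` of a Selmer element of the twist by `D`: divisibility -/
structure RV0 (B : ℕ) (D : 𝓞 F) (Δ : (V →+ ZMod 2) → K) (Z : V → 𝓞 K) : Prop where
  kd : Kd B D Δ
  eqv : Eqv F Z
  ne : ∀ t, Z t ≠ 0
  typ : ∀ l : ℕ, l.Prime → ¬ l ∣ B → ∀ w : HeightOneSpectrum (𝓞 K), Abv w l → ∀ t : V,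
    (iO F K D ∈ w.asIdeal ∧ TyV w Δ t → w.valuation K (Z t : K) = WithZero.exp (-1 : ℤ)) ∧
    (¬ (iO F K D ∈ w.asIdeal ∧ TyV w Δ t) → w.valuation K (Z t : K) = 1)

open Classical in
/-- `Z` belongs to the Kummer data `Δ` of a Selmer element of the twist by `D`; `μ, a` are from finite sets -/
structure RV [Fintype V] (B : ℕ) (μ : F) (a : (V →+ ZMod 2) → K) (D : 𝓞 F)
    (Δ : (V →+ ZMod 2) → K) (Z : V → 𝓞 K) : Prop where
  rel : RV0 B D Δ Z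
  qa : ∀ χ : V →+ ZMod 2, ∃ q : K, q ≠ 0 ∧ (∀ g : K ≃ₐ[F] K, tw g χ = χ → g q = q) ∧
    Δ χ * (∏ t ∈ univ.filter (fun t => χ t = 1), (Z t : K)) = a χ * q ^ 2
  qd : ∃ s : F, s ≠ 0 ∧ algebraMap F K (D : F) * (∏ t, (Z t : K)) = algebraMap F K (μ * s ^ 2)

/-- the possible `a` -/
def AdA (a : (V →+ ZMod 2) → K) : Prop :=
  ∀ χ, a χ ≠ 0 ∧ ∀ g : K ≃ₐ[F] K, tw g χ = χ → g (a χ) = a χ

end K

open Classical in
/-- JOB QAV. The class of `Δ χ` (compare `Pool/Agent/*/ESN/QAG.lean`, `S_QAG`; from `S_SUF`).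
Proof.  Fix `χ`; `L_χ` = the fixed field of `{g | tw g χ = χ}` in `K` (a number field).  `Y = Δ χ ∏_{χ t = 1} Z t` is in `L_χ` (`Kd.eqv`;
`Z` is equivariant and `{t | χ t = 1}` is stable under these `g`), `≠ 0`.  Let `u` be a prime of `L_χ` above `l ∤ B`, `w` a prime of `K`
above `u` (unramified over `ℚ` if `B1` is divisible by the ramified primes).  If `D ∉ w` all factors have even valuation at `w`.  If
`D ∈ w` let `t0` be the type (`Kd.odd`; unique, as the linear forms separate the elements of `V`, `2 V = 0`): `Δ χ` has parity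
`χ(t0)` and exactly `Z t0` has valuation `exp(-1)`, the other `Z t` are units at `w`; so the parity of `Y` is even.  `S_SUF` for `L_χ` gives `Y = a q²`
with `a` in a finite set.  The set of the functions `χ ↦ a χ` is finite. -/
def S_QAV : Prop := ∀ (F K : Type) [Field F] [NumberField F] [Field K] [NumberField K] [Algebra F K]
  [IsGalois ℚ K] (V : Type) [AddCommGroup V] [Fintype V] [DistribMulAction (K ≃ₐ[F] K) V],
  (∀ v : V, v + v = 0) → ∃ B1 : ℕ, B1 ≠ 0 ∧ ∀ B : ℕ, B1 ∣ B → B ≠ 0 →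
    ∃ Q : Finset ((V →+ ZMod 2) → K), (∀ a ∈ Q, AdA (F := F) a) ∧
    ∀ (D : 𝓞 F) (Δ : (V →+ ZMod 2) → K) (Z : V → 𝓞 K), RV0 B D Δ Z → ∃ a ∈ Q,
      ∀ χ : V →+ ZMod 2, ∃ q : K, q ≠ 0 ∧ (∀ g : K ≃ₐ[F] K, tw g χ = χ → g q = q) ∧
        Δ χ * (∏ t ∈ univ.filter (fun t => χ t = 1), (Z t : K)) = a χ * q ^ 2

/-- JOB QDV. `D` and the product of the `Z t` (adapt the proof of `S_QDG`, `Pool/Agent/*/ESN/QDG.lean`; from `S_SUF`). -/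
def S_QDV : Prop := ∀ (F K : Type) [Field F] [NumberField F] [Field K] [NumberField K] [Algebra F K]
  [IsGalois ℚ K] (V : Type) [AddCommGroup V] [Fintype V] [DistribMulAction (K ≃ₐ[F] K) V],
  (∀ v : V, v + v = 0) → ∃ B1 : ℕ, B1 ≠ 0 ∧ ∀ B : ℕ, B1 ∣ B → B ≠ 0 →
    ∃ Q : Finset F, (∀ μ ∈ Q, μ ≠ 0) ∧
    ∀ (D : 𝓞 F) (Δ : (V →+ ZMod 2) → K) (Z : V → 𝓞 K), RV0 B D Δ Z → ∃ μ ∈ Q, ∃ s : F, s ≠ 0 ∧
        algebraMap F K (D : F) * (∏ t, (Z t : K)) = algebraMap F K (μ * s ^ 2)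

/-- JOB RELV. From `Δ` and `ch` to `z` (adapt `S_REL` of `Pool/Agent/Q161/ESB/Stm3.lean`, see `Pool/Agent/Q161/ESB/All*.lean` for the
module, and `Pool/Agent/Q124/ESN/RELG.lean`; from `S_ZEX`, `S_QAV`, `S_QDV`, `S_FRX`).
Proof.  `B` = a multiple of `B1` and of the constants of the other statements (`Kd B1 D Δ` implies `Kd B D Δ` for `B1 ∣ B`).  `R` = the
set of the primes `v` of `F` with `D ∈ v`, `v ∤ B`, `τ w` = the type of `w` (unique; `τ (g w) = g (τ w)` by `Kd.eqv`); `S_ZEX` for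
`R_m = {v ∈ R | ch v = m}` gives `z m`, `m ∈ Fin M`; `Z t = ∏_m z m t`. -/
def S_RELV : Prop := ∀ (M : ℕ) (F K : Type) [Field F] [NumberField F] [Field K] [NumberField K]
  [Algebra F K] [IsGalois ℚ K] (V : Type) [AddCommGroup V] [Fintype V]
  [DistribMulAction (K ≃ₐ[F] K) V], (∀ v : V, v + v = 0) →
  ∀ (ι : Type) [Fintype ι] (Lf : ι → Type)
  [∀ i, Field (Lf i)] [∀ i, NumberField (Lf i)] (em : (i : ι) → Lf i →+* K) (rp : ι → V),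
  Rp F Lf em rp → ∀ B1 : ℕ, B1 ≠ 0 →
  ∃ (B : ℕ) (C0 K0 : ℝ) (Qm : Finset F) (Qa : Finset ((V →+ ZMod 2) → K)),
    B1 ∣ B ∧ B ≠ 0 ∧ 0 < C0 ∧ (∀ μ ∈ Qm, μ ≠ 0) ∧ (∀ a ∈ Qa, AdA (F := F) a) ∧
    ∀ (D : 𝓞 F) (Δ : (V →+ ZMod 2) → K) (ch : HeightOneSpectrum (𝓞 F) → Fin M), Kd B1 D Δ →
    ∃ μ ∈ Qm, ∃ a ∈ Qa, ∃ z : Fin M → V → 𝓞 K,
      RV B μ a D Δ (fun t => ∏ m, z m t) ∧
      (∀ m, Eqv F (z m) ∧
        ∀ i, ∃ β : 𝓞 (Lf i), em i (β : Lf i) = (z m (rp i) : K) ∧ Nice K0 β) ∧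
      (∃ N : 𝓞 F, ∏ m, ∏ t, z m t = iO F K N ∧ ((Ideal.absNorm (Ideal.span {N}) : ℕ) : ℝ) ≤
        C0 * ((Ideal.absNorm (Ideal.span {D}) : ℕ) : ℝ)) ∧
      ∀ l : ℕ, l.Prime → ¬ l ∣ B → ∀ w : HeightOneSpectrum (𝓞 K), Abv w l →
        ∀ v : HeightOneSpectrum (𝓞 F), Ov w v → ∀ m t, z m t ∈ w.asIdeal →
          D ∈ v.asIdeal ∧ ch v = m

open Classical in
/-- JOB LOCV. The local conditions for the products `Z`, `Z'`.
Proof.  `B1 = 2` (or more).  By `RV0.typ` `t` is the type of `w` for `Δ` and `Δ'`, `D, D' ∈ w`, and `Z s`, `Z' s`, `s ≠ t`, are units at `w`.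
Multiply `RV.qa` for `Δ` and `Δ'`: `(Δ χ Δ' χ) ∏_{χ s = 1} Z s Z' s = (a q q')²`, and `RV.qd`: `D D' ∏_s Z s Z' s = (μ s s')²`; the
elements in brackets are fixed by `φ`.  If `χ t = 0` the product `P` of the goal is `∏_{χ s = 1}`; if `χ t = 1` it is `∏_{χ s = 0}`.  So in
both cases `Δ χ Δ' χ (D D')^(χ t) P = x²` or, equivalently, `P x² = Δ χ Δ' χ (D D')^(χ t) =: Y` with `φ x = x ≠ 0`.  `Rl` gives a `k` with
`(Y l^(2k))^((l-1)/2) ≡ 1` modulo `w`; `u = x l^k` is a unit at `w` fixed by `φ`, so `u^(l-1) ≡ 1` (`Fb`: `φ x ≡ x^l` for `x ∈ 𝓞 K`; `u` is a quotient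
of elements of `𝓞 K` which are not in `w`), `P^((l-1)/2) ≡ 1`.  (`χ (φ • s) = χ s` for all `s` is `tw φ χ = χ`.) -/
def S_LOCV : Prop := ∀ (F K : Type) [Field F] [NumberField F] [Field K] [NumberField K] [Algebra F K]
  [IsGalois ℚ K] (V : Type) [AddCommGroup V] [Fintype V] [DistribMulAction (K ≃ₐ[F] K) V],
  (∀ v : V, v + v = 0) → ∃ B1 : ℕ, B1 ≠ 0 ∧ ∀ B : ℕ, B1 ∣ B → B ≠ 0 →
    ∀ (μ : F) (a : (V →+ ZMod 2) → K), μ ≠ 0 → AdA (F := F) a →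
    ∀ (D D' : 𝓞 F) (Δ Δ' : (V →+ ZMod 2) → K) (Z Z' : V → 𝓞 K), RV B μ a D Δ Z → RV B μ a D' Δ' Z' →
      Rl B D D' Δ Δ' → ∀ l : ℕ, l.Prime → ¬ l ∣ B → ∀ (w : HeightOneSpectrum (𝓞 K))
      (φ : K ≃ₐ[F] K), Abv w l → Fb w l φ → ∀ t : V, Z t ∈ w.asIdeal → Z' t ∈ w.asIdeal →
      φ • t = t ∧ (∀ s, s ≠ t → Z s ∉ w.asIdeal) ∧
      ∀ χ : V →+ ZMod 2, (∀ s, χ (φ • s) = χ s) →
        (∏ s ∈ univ.filter (fun s => χ (s - t) ≠ 0), Z s * Z' s) ^ ((l - 1) / 2) - 1 ∈ w.asIdeal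

/-- JOB CNTV. The weighted count (adapt `S_CNT` of `Pool/Agent/Q161/ESB/Stm3.lean`; from `S_RPX`, `S_RELV`, `S_LOCV`, `S_MN`).
Proof.  For `(μ, a)` let `T` be the set of all `z : Fin M → V → 𝓞 K` such that there are `(D, Δ) ∈ 𝒮` and `ch` with the properties in
`S_RELV` (this does not depend on `𝒯`).  `LocB` by `S_LOCV` (with `Rl` for the pairs of elements of `𝒮`; `Rl B1` implies `Rl B` for
`B1 ∣ B`; `LocB.one`: `S_LOCV` with `Δ = Δ'`) and the last part of `S_RELV`, as in the proof of `S_CNT`.  Count the pairs `((D, Δ), ch)`, `(D, Δ) ∈ 𝒯`, `ch` a map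
from the set of the primes `v ∋ D`, `v ∤ B`, to `Fin M`: the pair is determined by `(μ, a, z)`: for the same `(μ, a, z)` `D D' (∏ Z)² = μ² s² s'²`, so `D D'`
is a square, and `Δ χ Δ' χ (∏ Z)² = (a q q')²` is a square for all `χ`; so `(D, Δ) = (D', Δ')` by the hypothesis on `𝒯`; `ch` as in `S_CNT`. -/
def S_CNTV : Prop := ∀ (M : ℕ) (F K : Type) [Field F] [NumberField F] [Field K] [NumberField K]
  [Algebra F K] [IsGalois ℚ K] (V : Type) [AddCommGroup V] [Fintype V]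
  [DistribMulAction (K ≃ₐ[F] K) V], 1 ≤ M → (∀ v : V, v + v = 0) → Semi (K ≃ₐ[F] K) V →
  (∀ v : V, (∀ g : K ≃ₐ[F] K, g • v = v) → v = 0) →
  ∀ (B : ℕ) (𝒮 : Set (𝓞 F × ((V →+ ZMod 2) → K))), B ≠ 0 → (∀ p ∈ 𝒮, Kd B p.1 p.2) →
  (∀ p ∈ 𝒮, ∀ p' ∈ 𝒮, Rl B p.1 p'.1 p.2 p'.2) →
  ∃ C0 : ℝ, 0 < C0 ∧ ∀ (𝒯 : Finset (𝓞 F × ((V →+ ZMod 2) → K))) (X : ℝ), 1 ≤ X →
    (∀ p ∈ 𝒯, p ∈ 𝒮 ∧ ((Ideal.absNorm (Ideal.span {p.1}) : ℕ) : ℝ) ≤ X) →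
    (∀ p ∈ 𝒯, ∀ p' ∈ 𝒯, IsSquare ((p.1 : F) * (p'.1 : F)) → (∀ χ, IsSquare (p.2 χ * p'.2 χ)) → p = p') →
    ((∑ p ∈ 𝒯, M ^ om p.1 : ℕ) : ℝ) ≤ C0 * X * (1 + Real.log X) ^ (M - 1)

end Pool.Agent.Q161.ESV
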