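import Pool.Agent.Q161.ESV.Def
import Pool.Agent.Q161.ESV.Stm1
import Pool.Agent.Q161.ESJ.Stm1

/-!
# Project ESV (helper161), part 2: the cohomological side

`St e i` (setting): `K/F` number fields, `K` Galois over `ℚ`, `e : K → F^a` an embedding over `F`, `V` a finite module of `Gal(K/F)`,
`i : V → W` an isomorphism onto `W[2]` which is compatible with the actions (so `Gal(F^a/K)` acts trivially on `W[2]`).

For a cocycle `c` with values in `W[2]` and a linear form `χ` on `V = W[2]` the map `σ ↦ χ(c σ)` is a homomorphism on the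
stabiliser of `χ` in `G_F`; it is the character of a square root of an element `Δ χ` of the fixed field (`Kum`).

LOCAL ANALYSIS.  Let `l ∤ B`, `ψ` a prime of `F^a` above `l`.  (a) `D` unramified at `ψ`: `σ ∈ Ine ψ` acts trivially on `W` and `χ_D(σ) = 1`,
so `c σ = χ_D(σ) σ P - P = 0`.  (b) `D` ramified: `c σ = χ_D(σ) σ P - P` for all `σ ∈ Dec ψ`; `t := 2 P`; `2 c = 0` gives `χ_D(σ) σ t = t` on
`Dec ψ`, and for `σ ∈ Ine ψ` with `χ_D(σ) = -1`: `-t = t`; so `t ∈ W[2]`, `σ t = t` on `Dec ψ`; for `σ ∈ Ine ψ` `c σ = 0` if `χ_D(σ) = 1` and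
`c σ = -2 P = t` if `χ_D(σ) = -1`.  So `Δ χ D^(χ t)` is unramified at `ψ`.  (c) Two cocycles `c, c'` of the twists by `D, D'` (both
ramified) with the same `t = 2 P = 2 P'`, `χ` a linear form fixed by `Dec ψ`, `σ ∈ Dec ψ`: `χ(c σ - c' σ) = χ(t)` if `χ_D(σ) ≠ χ_(D')(σ)` and `0`
otherwise (`P - P'` and `P + P'` are in `W[2]`, `χ(σ R - R) = 0` for `R ∈ W[2]`).  So `Δ χ Δ' χ (D D')^(χ t)` is the square of an element fixed by
`Dec ψ`.
-/

set_option autoImplicit false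

namespace Pool.Agent.Q161.ESV

open NumberField IsDedekindDomain Finset
open Pool.Agent.Q51.EL (Abv Par)

export Pool.Agent.Q161.ESJ (Ga Nm S_INR S_CMP)
export Pool.Agent.Q161.ESG (S_EMBW S_SUMG)

section set

variable {F K : Type} [Field F] [NumberField F] [Field K] [NumberField K] [Algebra F K]
  {W : Type} [AddCommGroup W] [DistribMulAction (GF F) W]
  {V : Type} [AddCommGroup V] [DistribMulAction (K ≃ₐ[F] K) V]

/-- `σ` restricts to `g` on `K` -/
def Rs (e : K →ₐ[F] AlgebraicClosure F) (σ : GF F) (g : K ≃ₐ[F] K) : Prop := ∀ x, σ (e x) = e (g x)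

/-- `V = W[2]` -/
structure St (e : K →ₐ[F] AlgebraicClosure F) (i : V →+ W) : Prop where
  inj : Function.Injective i
  im : ∀ w : W, w + w = 0 ↔ ∃ v, i v = w
  act : ∀ (σ : GF F) (g : K ≃ₐ[F] K), Rs e σ g → ∀ v, i (g • v) = σ • i v

/-- `Δ` are the Kummer data of the cocycle `c` with values in `W[2]` -/
structure Kum (e : K →ₐ[F] AlgebraicClosure F) (i : V →+ W) (c : GF F → W)
    (Δ : (V →+ ZMod 2) → K) : Prop where
  ne : ∀ χ, Δ χ ≠ 0
  eqv : ∀ (g : K ≃ₐ[F] K) (χ : V →+ ZMod 2), g (Δ (tw g χ)) = Δ χ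
  gal : ∀ (χ : V →+ ZMod 2) (σ : GF F) (g : K ≃ₐ[F] K), Rs e σ g → tw g χ = χ → ∀ v : V, i v = c σ →
    ∀ s : AlgebraicClosure F, s ^ 2 = e (Δ χ) → σ s = if χ v = 1 then -s else s

end set

/-! ## Part A: simple facts -/

/-- JOB CHI. The quadratic characters.
Proof.  If `s² = D` then the other root is `-s`; `σ s = ± s`.  If `D' = D u²` the square roots differ by the factor `u ∈ F^*`.  Last part:
`(σ (e y) = e y` for `y ∈ K` if `Rs e σ 1`); `Rs`: `K/F` is normal (Galois over `ℚ`), so `σ (e K) = e K`. -/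
def S_CHI : Prop := ∀ (F : Type) [Field F] [NumberField F],
  (∀ D : F, (∀ σ, chi D σ = 1 ∨ chi D σ = -1) ∧ (∀ σ τ, chi D (σ * τ) = chi D σ * chi D τ) ∧
    (∀ (σ : GF F) (s : AlgebraicClosure F), s ^ 2 = algebraMap F _ D → σ s = chi D σ • s) ∧
    ∃ L : IntermediateField F (AlgebraicClosure F), FiniteDimensional F L ∧
      ∀ σ ∈ L.fixingSubgroup, chi D σ = 1) ∧
  (∀ (D u : F), u ≠ 0 → chi (D * u ^ 2) = chi D) ∧
  ∀ (K : Type) [Field K] [NumberField K] [Algebra F K] [IsGalois ℚ K] (e : K →ₐ[F] AlgebraicClosure F)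
    (σ : GF F), ∃ g : K ≃ₐ[F] K, Rs e σ g

/-- JOB ACT. The setting exists.
Proof.  Every `w ∈ W[2]` (finite) is fixed by an open subgroup; let `L` be the compositum of these finite extensions; `K` = a number
field in `F^a` containing `L`, Galois over `ℚ` (the normal closure over `ℚ`: choose the subfield of `F^a` generated by all conjugates over `ℚ` of a
primitive element of `L`, as an `IntermediateField F (AlgebraicClosure F)`; note that `F^a` is also an algebraic closure of `ℚ`).  `V` =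
the subgroup of `W` of the `w` with `2 w = 0`; `g • v = σ • v` for any `σ` with `Rs e σ g` (exists: extension of automorphisms; independent of the
choice as `Gal(F^a/K)` acts trivially).  `Semi` and no invariants: from `Adm.ss`, `Adm.noinv` (`Semi` = complements of stable
subgroups; every `σ` restricts to a `g`). -/
def S_ACT : Prop := ∀ (F : Type) [Field F] [NumberField F] (W : Type) [AddCommGroup W]
  [DistribMulAction (GF F) W], Adm F W →
  ∃ (K : Type) (_ : Field K) (_ : NumberField K) (_ : Algebra F K) (_ : IsGalois ℚ K)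
    (e : K →ₐ[F] AlgebraicClosure F) (V : Type) (_ : AddCommGroup V) (_ : Fintype V)
    (_ : DistribMulAction (K ≃ₐ[F] K) V) (i : V →+ W), St e i ∧ (∀ v : V, v + v = 0) ∧
    Semi (K ≃ₐ[F] K) V ∧ ∀ v : V, (∀ g : K ≃ₐ[F] K, g • v = v) → v = 0

/-- JOB KDV. Existence of the Kummer data.
Proof.  `c (σ τ) = c σ + σ c τ` (`χ_D = ± 1` acts trivially on `W[2]`).  Let `χ1` be a linear form, `S = {g ∈ Gal(K/F) | tw g χ1 = χ1}`, `L` its
fixed field.  For `σ ∈ Gal(F^a/L)` `h(σ) = χ1(i⁻¹ c σ)` is a continuous homomorphism to `ℤ/2` (`χ1(σ v) = χ1(v)`).  By Hilbert 90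
(`Pool.Agent.Q161.ESF.S_K90F`, proved, for `F := L`, or directly for `L/F`; or: the fixed field of the kernel of `h` is `L` or a quadratic extension `L(√δ)`)
there is a `δ ∈ L^*` with `σ √δ = (-1)^(h σ) √δ`.  `Δ χ1 = δ`, and `Δ χ = g δ` for `χ1 = tw g χ` (transversal of the orbits of the `χ`; well defined as
`S` fixes `δ`).  `gal` for `χ`, `tw g χ = χ1`, `ρ` a lift of `g`, `σ` with `tw σ χ = χ`: `(g δ)` has the square root `ρ √δ`, `ρ⁻¹ σ ρ` is in the stabiliser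
of `χ1`, and `c(ρ⁻¹ σ ρ) = ρ⁻¹ (c σ + σ c ρ - c ρ)` as `c(ρ⁻¹) = - ρ⁻¹ c ρ`, so `χ1(c (ρ⁻¹ σ ρ)) = χ(c σ + σ c ρ - c ρ) = χ(c σ)`
(`χ1(ρ⁻¹ v) = χ(v)`). -/
def S_KDV : Prop := ∀ (F K : Type) [Field F] [NumberField F] [Field K] [NumberField K] [Algebra F K]
  [IsGalois ℚ K] (W : Type) [AddCommGroup W] [DistribMulAction (GF F) W] (V : Type) [AddCommGroup V]
  [Fintype V] [DistribMulAction (K ≃ₐ[F] K) V] (e : K →ₐ[F] AlgebraicClosure F) (i : V →+ W),
  St e i → (∀ v : V, v + v = 0) → ∀ (D : F), ∀ c ∈ Z1 W D, (∀ σ, c σ + c σ = 0) →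
    ∃ Δ : (V →+ ZMod 2) → K, Kum e i c Δ

/-- JOB FIB. The cocycles with the same Kummer data.
Proof.  Let `c, c'` be two of them.  For `σ` with `Rs e σ 1` and all `χ` (`tw 1 χ = χ`): `s² = e(Δ χ)`, `s'² = e(Δ' χ)`, `s s' = ± e(y)` for a `y ∈ K`, so
`σ(s s') = s s'`, and `Kum.gal` gives `χ(c σ) = χ(c' σ)` for all `χ`, so `c σ = c' σ`.  So `c - c'` vanishes on `Gal(F^a/K)`, and `(c - c')(σ)`
depends only on the restriction `g` of `σ` to `K` (`(c - c')(σ ρ) = (c - c')(σ) + σ (c - c')(ρ)`).  So the map which sends `c` to the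
function `g ↦ (c - c_1)(σ_g)` is injective: `N = #V^#Gal(K/F)`. -/
def S_FIB : Prop := ∀ (F K : Type) [Field F] [NumberField F] [Field K] [NumberField K] [Algebra F K]
  [IsGalois ℚ K] (W : Type) [AddCommGroup W] [DistribMulAction (GF F) W] (V : Type) [AddCommGroup V]
  [Fintype V] [DistribMulAction (K ≃ₐ[F] K) V] (e : K →ₐ[F] AlgebraicClosure F) (i : V →+ W),
  St e i → (∀ v : V, v + v = 0) → ∃ N : ℕ, 1 ≤ N ∧ ∀ (D : F) (𝒞 : Finset (GF F → W))
    (Δ : (GF F → W) → (V →+ ZMod 2) → K), (∀ c ∈ 𝒞, c ∈ Z1 W D ∧ (∀ σ, c σ + c σ = 0) ∧ Kum e i c (Δ c)) →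
    (∀ c ∈ 𝒞, ∀ c' ∈ 𝒞, ∀ χ, IsSquare (Δ c χ * Δ c' χ)) → 𝒞.card ≤ N

/-- JOB RPZ. Representatives.  (1) A class `x` with `2 x = 0` is represented by a cocycle with values in `W[2]`: if `2 c = cob Q`, `2 Q' = Q`
(`Adm.div`), take `c - cob Q'`; it is in `SelZ` as the coboundaries are (`cob Q'` is trivial on an open subgroup: `Adm.stab`, `S_CHI`; the local
conditions with `P = Q'`).  (2) `Sel` depends only on `D` modulo squares, and grows with `B`: for `B ∣ B'`, `B' ≠ 0`, `SelZ W B D ≤ SelZ W B' D`, so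
`Sel W B D → Sel W B' D` is injective. -/
def S_RPZ : Prop := ∀ (F : Type) [Field F] [NumberField F] (W : Type) [AddCommGroup W]
  [DistribMulAction (GF F) W], Adm F W →
  (∀ (B : ℕ) (D : F) (x : Sel W B D), x + x = 0 → ∃ c : SelZ W B D, (∀ σ, (c : GF F → W) σ + (c : GF F → W) σ = 0) ∧
    (QuotientAddGroup.mk c : Sel W B D) = x) ∧
  (∀ (B : ℕ) (D u : F), u ≠ 0 → sel2 W B (D * u ^ 2) = sel2 W B D) ∧
  ∀ (B B' : ℕ) (D : F), B ∣ B' → B' ≠ 0 → Finite (Sel2 W B' D) →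
    Finite (Sel2 W B D) ∧ sel2 W B D ≤ sel2 W B' D

/-- JOB POW. Powers of `W`.
Proof.  `Adm` for `Fin k → W` (componentwise action): `stab`: the compositum of `k` finite extensions; `ss`: `(W[2])^k` is a sum of `k` semisimple
submodules (`S_SUMG`, proved: `Pool.Agent.Q166.ESG.sumg`, for the finite group of the elements killed by 2 and `G = GF F`; or Mathlib's
`IsSemisimpleModule` over `MonoidAlgebra (ZMod 2) (GF F)`); `unr`, `noinv`, `div`, `fin` componentwise.  The map which sends `(x_j)` to the class of the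
cocycle `σ ↦ (c_j σ)_j` is an injection from `(Sel2 W B D)^k` to `Sel2 (Fin k → W) B D` (the local conditions with `P = (P_j)`; if
`(c_j)` is a coboundary then every `c_j` is one). -/
def S_POW : Prop := ∀ (F : Type) [Field F] [NumberField F] (W : Type) [AddCommGroup W]
  [DistribMulAction (GF F) W] (k : ℕ), Adm F W → Adm F (Fin k → W) ∧
  ∀ (B : ℕ) (D : F), Finite (Sel2 (Fin k → W) B D) → sel2 W B D ^ k ≤ sel2 (Fin k → W) B D

/-! ## Part B: the local conditions -/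

/-- JOB INC. Inertia (from `S_INR`, by compactness).
Proof.  The group of the automorphisms of `PadicAlgCl l` over `ℚ_[l]` is compact (profinite, Krull topology); the sets
`{τ | Ga E τ ∧ τ ϖ = -ϖ ∧ ‖τ z - z‖ < 1}` for the `z` with `‖z‖ ≤ 1` are closed (the condition depends only on the image of the algebraic element `z`, so it is
open and closed; `Ga E` is an intersection of closed conditions) and have the finite intersection property by `S_INR`. -/
def S_INC : Prop := ∀ (l : ℕ) [Fact l.Prime], l ≠ 2 → ∀ E : IntermediateField ℚ_[l] (PadicAlgCl l),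
  (∀ c ∈ E, c ≠ 0 → ∃ m : ℤ, ‖c‖ = (l : ℝ) ^ m) → ∀ D ∈ E, ‖D‖ = (l : ℝ) ^ (-1 : ℤ) →
  ∀ ϖ : PadicAlgCl l, ϖ ^ 2 = D →
  ∃ σ : PadicAlgCl l ≃ₐ[ℚ_[l]] PadicAlgCl l, Ga E σ ∧ σ ϖ = -ϖ ∧ ∀ z, ‖z‖ ≤ 1 → ‖σ z - z‖ < 1

/-- a prime `ψ` of `F^a` above the prime `w` of `K` -/
structure Exi {F K : Type} [Field F] [NumberField F] [Field K] [NumberField K] [Algebra F K]
    (e : K →ₐ[F] AlgebraicClosure F) {l : ℕ} [Fact l.Prime] (w : HeightOneSpectrum (𝓞 K))
    (ψ : AlgebraicClosure F →+* PadicAlgCl l) : Prop where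
  nm : ∀ (x : K) (m : ℤ), w.valuation K x = WithZero.exp (-m) → ‖ψ (e x)‖ = (l : ℝ) ^ (-m)
  cpt : ∀ τ : PadicAlgCl l ≃ₐ[ℚ_[l]] PadicAlgCl l,
    (∀ x : F, τ (ψ (algebraMap F _ x)) = ψ (algebraMap F _ x)) → ∃ σ : GF F, Cpt ψ τ σ
  fro : ∀ φ : K ≃ₐ[F] K, Fb w l φ → ∀ τ : PadicAlgCl l ≃ₐ[ℚ_[l]] PadicAlgCl l,
    ∃ (σ : GF F) (j : ℕ), Cpt ψ τ σ ∧ Rs e σ (φ ^ j)
  ram : ∀ y : K, Par w y 1 → ∀ s : AlgebraicClosure F, s ^ 2 = e y →
    ∃ σ ∈ Ine ψ, Rs e σ 1 ∧ σ s = -s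

/-- JOB EXI. A prime of `F^a` above a prime `w` of `K`, and a ramified element (from `S_INC`, `S_EMBW`, `S_CMP`).
Proof.  `B1` = 2 times the primes `l` with `(l)` not squarefree in `K` (a multiple of the discriminant).  `ψ0 : K → PadicAlgCl l` from `S_EMBW`
(proved: `Pool.Agent.Q151.ESG.embw`); extend it along `e` to `ψ : F^a → PadicAlgCl l` (`F^a` is algebraic over `e K`, `PadicAlgCl l` is algebraically
closed: `IsAlgClosed.lift` with the algebra structure given by `ψ0`).  `cpt`: `ψ(F^a)` = the elements of `PadicAlgCl l` algebraic over `ψ(F)`, so it is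
stable under `τ`.  `fro` is the last part of `S_EMBW` together with `cpt` (a Frobenius element `φ` over `F` is one over `ℚ`; `τ ψ0 = ψ0 φ^j` fixes
`ψ(F)` pointwise).  `ram`: `y` has valuation `exp(1 + 2k)`; `E` = the field generated by `ψ0(K)` over `ℚ_l`, `D = ψ0(y) l^(2k + 2)` has norm
`l^(1 + 2k) l^(-2k-2) = l^(-1)`, `S_CMP` (proved: `Pool.Agent.Q161.ESJ.t_cmp`; with `F := K`, `v := w`) gives the hypothesis of `S_INC`, `ϖ = ψ(s) l^(k+1)`; the `τ` of
`S_INC` fixes `ψ0(K)`, so it is compatible with some `σ` with `Rs e σ 1`, and `σ s = -s`. -/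
def S_EXI : Prop := ∀ (F K : Type) [Field F] [NumberField F] [Field K] [NumberField K] [Algebra F K]
  [IsGalois ℚ K] (e : K →ₐ[F] AlgebraicClosure F), ∃ B1 : ℕ, B1 ≠ 0 ∧ ∀ (l : ℕ) [Fact l.Prime], ¬ l ∣ B1 →
  ∀ w : HeightOneSpectrum (𝓞 K), Abv w l → ∃ ψ : AlgebraicClosure F →+* PadicAlgCl l, Exi e w ψ

/-- JOB LCT. The type of `w` (from `S_CHI`; `Exi` is a hypothesis).
Proof.  See LOCAL ANALYSIS (b).  `B1` = 2 times the constant of `Adm.unr` times the primes ramified in `K`.  The valuation of `D` at `w` is `exp(-1)` (`SqF`, `l`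
unramified in `K`; see `val_blw` in `Pool/Agent/Q149/ESM/ZEXa.lean` or the modules of project ESN), so `Exi.ram` for `y = D` shows that `χ_D(σ) = -1` for
some `σ ∈ Ine ψ`.  `t = P + P`: `c σ + c σ = 0` gives `χ_D(σ) σ t = t` for `σ ∈ Dec ψ` (`Ine ψ ⊆ Dec ψ`), and `σ t = t` for `σ ∈ Ine ψ` (`Adm.unr`), so `-t = t`,
`t = i v`.  For `σ ∈ Ine ψ`: `c σ = 0` if `χ_D(σ) = 1` and `c σ = -2 P = t` if `χ_D(σ) = -1`.  Let `χ` be a linear form; `Δ χ ≠ 0`, so its valuation is `exp m`.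
If `χ v = 0` and `m` is odd then `Exi.ram` for `y = Δ χ` gives `σ ∈ Ine ψ` with `Rs e σ 1`, `σ s = -s`, but `Kum.gal` (`χ (c σ) = 0`) gives `σ s = s`.  If `χ v = 1`
and `m` is even, then `y = Δ χ D` is odd, so there is a `σ ∈ Ine ψ`, `Rs e σ 1`, `σ s = - s`, `s = s1 s2`, `s1² = Δ χ`, `s2² = D`, but `σ s1 = χ_D(σ) s1`
(`Kum.gal`) and `σ s2 = χ_D(σ) s2` (`S_CHI`), contradiction. -/
def S_LCT : Prop := ∀ (F K : Type) [Field F] [NumberField F] [Field K] [NumberField K] [Algebra F K]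
  [IsGalois ℚ K] (W : Type) [AddCommGroup W] [DistribMulAction (GF F) W] (V : Type) [AddCommGroup V]
  [Fintype V] [DistribMulAction (K ≃ₐ[F] K) V] (e : K →ₐ[F] AlgebraicClosure F) (i : V →+ W),
  Adm F W → St e i → (∀ v : V, v + v = 0) → ∃ B1 : ℕ, B1 ≠ 0 ∧ ∀ B : ℕ, B1 ∣ B → B ≠ 0 →
    ∀ D : 𝓞 F, SqF B D → ∀ c : GF F → W, (∀ σ, c σ + c σ = 0) → ∀ Δ : (V →+ ZMod 2) → K, Kum e i c Δ →
    ∀ (l : ℕ) [Fact l.Prime], ¬ l ∣ B → ∀ w : HeightOneSpectrum (𝓞 K), Abv w l → iO F K D ∈ w.asIdeal →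
    ∀ ψ : AlgebraicClosure F →+* PadicAlgCl l, Exi e w ψ →
      (∃ σ ∈ Ine ψ, chi (D : F) σ = -1) ∧
      ∀ P : W, (∀ σ ∈ Dec ψ, c σ = cob W (D : F) P σ) → ∃ v : V, i v = P + P ∧ TyV w Δ v

/-- JOB LCA. The parities and the types (from `S_EXI`, `S_LCT`).
Proof.  `ne`, `eqv` from `Kum`.  `B1` = the constants of `S_EXI`, `S_LCT` and of `Adm.unr`, times 2.  Let `l ∤ B`, `w` above `l`, `ψ` as in `S_EXI`.  `even`: `D ∉ w`: then
`χ_D` is trivial on `Ine ψ`: let `s² = D`, `σ ∈ Ine ψ`, `τ` compatible; `x = ψ s` has `‖x‖ = 1` (`ψ(D)` is a unit), `τ x = ± x` and `‖τ x - x‖ < 1`, so `τ x = x` (`l ≠ 2`).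
So `c σ = P - P = 0` for all `σ ∈ Ine ψ` (`LocS.ine`, `Adm.unr`).  If the valuation of `Δ χ` were odd `Exi.ram` gives a `σ ∈ Ine ψ` with `Rs e σ 1` and `σ s = -s` for
a square root `s` of `e(Δ χ)`, but `Kum.gal` (with `g = 1`) gives `σ s = s`.  `odd`: `P` from `LocS.dec` and `S_LCT`, `v` the type.  `φ v = v`: `φ w = w`
(`Fb`), so by `Kum.eqv` the valuations of `Δ (tw φ χ)` and `Δ χ` at `w` are equal, `χ (φ v) = χ v` for all `χ`, and the linear forms separate the elements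
of `V` (`2 V = 0`). -/
def S_LCA : Prop := ∀ (F K : Type) [Field F] [NumberField F] [Field K] [NumberField K] [Algebra F K]
  [IsGalois ℚ K] (W : Type) [AddCommGroup W] [DistribMulAction (GF F) W] (V : Type) [AddCommGroup V]
  [Fintype V] [DistribMulAction (K ≃ₐ[F] K) V] (e : K →ₐ[F] AlgebraicClosure F) (i : V →+ W),
  Adm F W → St e i → (∀ v : V, v + v = 0) → ∃ B1 : ℕ, B1 ≠ 0 ∧ ∀ B : ℕ, B1 ∣ B → B ≠ 0 →
    ∀ D : 𝓞 F, SqF B D → ∀ c ∈ SelZ W B (D : F), (∀ σ, c σ + c σ = 0) →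
    ∀ Δ : (V →+ ZMod 2) → K, Kum e i c Δ → Kd B D Δ

/-- JOB LCB. The relative condition (from `S_EXI`, `S_CHI`, `S_LCT`).
Proof.  See LOCAL ANALYSIS (c).  `l ∤ B`, `D, D' ∈ w`, `ψ` as in `S_EXI`; `P, P'` from `LocS.dec`; `i v = 2 P`, `i v' = 2 P'` are the types of `w` for `Δ`, `Δ'`
(`S_LCT`), so `v = v' = t` (the linear forms separate the elements of `V`).  Let `φ` be a Frobenius element with `tw φ χ = χ`, `Y = Δ χ Δ' χ (D D')^(χ t)`, `s` a square root of `e Y` in `F^a`.  For every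
automorphism `τ` of `PadicAlgCl l` over `ℚ_[l]` there is a compatible `σ ∈ Dec ψ` which restricts to a power `φ^j`, `tw (φ^j) χ = χ`; `Kum.gal` and
`S_CHI` (for `χ_D`, `χ_(D')`) and (c) give `σ s = s`.  So `ψ s ∈ ℚ_l`, `‖ψ s‖ = l^(-k)` for a `k`, `ψ s l^(-k)` is a unit `u` of `ℤ_l`, and
`(Y l^(-2k))^((l-1)/2)` is mapped to `u^(l-1) ≡ 1`; this gives `QR` (norms at `ψ` = valuations at `w`).
The valuation of `Y` is even. -/
def S_LCB : Prop := ∀ (F K : Type) [Field F] [NumberField F] [Field K] [NumberField K] [Algebra F K]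
  [IsGalois ℚ K] (W : Type) [AddCommGroup W] [DistribMulAction (GF F) W] (V : Type) [AddCommGroup V]
  [Fintype V] [DistribMulAction (K ≃ₐ[F] K) V] (e : K →ₐ[F] AlgebraicClosure F) (i : V →+ W),
  Adm F W → St e i → (∀ v : V, v + v = 0) → ∃ B1 : ℕ, B1 ≠ 0 ∧ ∀ B : ℕ, B1 ∣ B → B ≠ 0 →
    ∀ D D' : 𝓞 F, SqF B D → SqF B D' → ∀ c ∈ SelZ W B (D : F), (∀ σ, c σ + c σ = 0) →
    ∀ c' ∈ SelZ W B (D' : F), (∀ σ, c' σ + c' σ = 0) →
    ∀ Δ Δ' : (V →+ ZMod 2) → K, Kum e i c Δ → Kum e i c' Δ' → Rl B D D' Δ Δ'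

end Pool.Agent.Q161.ESV
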