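import Pool.Agent.Q161.ESV.Def2
import Pool.Agent.Q161.ESV.Stm2

/-!
# Project ESV (helper161), part 4: 2-adic representations

From `H¹(F, V_D)` to the Selmer group of `W_D = V_D/T_D`: if `r` is the dimension of the space `HV ρ B D` of the classes which satisfy
the conditions of Bloch and Kato at the primes not dividing `B` then `2^r ≤ #Sel^B(W_D)[2]`.
-/

set_option autoImplicit false

namespace Pool.Agent.Q161.ESV

open NumberField IsDedekindDomain Finset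

/-- JOB WAD. `V/T` satisfies the conditions.
Proof.  `div`: `u = v/2`.  `stab`: `2^N v ∈ T`; `ρ` is continuous, so `ρ σ ≡ 1` modulo `2^N` on an open subgroup (in the Krull topology it contains
`L.fixingSubgroup` for a finite `L/F`: `krullTopology_mem_nhds_one_iff`), `act ρ σ v - v ∈ T`.  `fin`, `noinv`, `ss`: `u ↦ mkW (ũ/2)` (`ũ ∈ ℤ_2^n` a lift of
`u ∈ 𝔽_2^n`) is an isomorphism of `𝔽_2^n` onto the elements of `V/T` killed by 2, compatible with the actions (`act2` and `•`).  `unr`: `ρ σ = 1`. -/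
def S_WAD : Prop := ∀ (F : Type) [Field F] [NumberField F] (n : ℕ) (ρ : GF F →* GL (Fin n) ℤ_[2]),
  AdV ρ → Adm F (WV ρ)

/-- JOB LAT. Lattices.
Proof.  `Λ` is a `ℤ_2`-submodule?  `Λ` contains the open subgroup `2^N ℤ_2^m`, so it is open and closed, and stable under `ℤ_2` (`ℤ` is dense in `ℤ_2`).  `Λ` is
bounded: otherwise there are `a_j ∈ Λ`, `‖a_j‖ = 2^(e_j)`, `e_j → ∞`; the `2^(e_j) a_j` have norm 1, a subsequence converges to an `a` of norm 1 (compactness), and for every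
fixed `j0` `2^(-j0) 2^(e_j) a_j ∈ Λ` for large `j` (as `e_j ≥ j0`) is close to `2^(-j0) a`, so `2^(-j0) a ∈ Λ`, a contradiction to `hl`.  So `2^N ℤ_2^m ⊆ Λ ⊆ 2^(-N') ℤ_2^m = A`.
`x + x ∈ Λ` iff `x ∈ Λ/2`; `[Λ/2 : Λ] = [Λ : 2Λ]`, and `[A : 2A] [2A : 2Λ] = [A : Λ] [Λ : 2Λ]`, `[2A : 2Λ] = [A : Λ]` finite, so `[Λ : 2Λ] = [A : 2A] = 2^m`. -/
def S_LAT : Prop := ∀ (m : ℕ) (Λ : AddSubgroup (Fin m → ℚ_[2])),
  (∃ N : ℕ, ∀ a : Fin m → ℚ_[2], (∀ i, ‖a i‖ ≤ 1) → (2 : ℚ_[2]) ^ N • a ∈ Λ) →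
  (∀ a : Fin m → ℚ_[2], (∀ j : ℕ, ((2 : ℚ_[2]) ^ j)⁻¹ • a ∈ Λ) → a = 0) →
  Nat.card {x : (Fin m → ℚ_[2]) ⧸ Λ // x + x = 0} = 2 ^ m

/-- JOB NOL. No divisible elements.
Proof.  `2^j` times the hypothesis: `c - cobV (2^j Q_j)` has values in `2^j T`, so `c` is the limit (pointwise) of elements of the range of `cobV ρ D`, which is a
finite-dimensional subspace of the topological vector space `GF F → (Fin n → ℚ_[2])` (product topology) over the complete field `ℚ_[2]`, so closed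
(`Submodule.closed_of_finiteDimensional`). -/
def S_NOL : Prop := ∀ (F : Type) [Field F] [NumberField F] (n : ℕ) (ρ : GF F →* GL (Fin n) ℤ_[2])
  (D : F) (c : GF F → (Fin n → ℚ_[2])),
  (∀ j : ℕ, ∃ Q, ∀ σ, ((2 : ℚ_[2]) ^ j)⁻¹ • c σ - cobV ρ D Q σ ∈ lat n) → c ∈ LinearMap.range (cobV ρ D)

/-- JOB SLV. The image in `H¹(F, V_D/T)`.
Proof.  `mkW ∘ c` is a cocycle; `c` is continuous, `c 1 = 0`, `lat n` is open, so `mkW (c σ) = 0` on an open subgroup?  The set `{σ | c σ ∈ lat n}` is a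
neighbourhood of `1`, so it contains `L.fixingSubgroup` for a finite `L/F`.  `ine`: `P` modulo `T`.  `dec`: `D` is ramified at `ψ`, `σ0 ∈ Ine ψ`,
`χ_D(σ0) = -1`.  `B1` = the constant of `AdV.unr`: `ρ σ = 1` for `σ ∈ Ine ψ`.  `P` from `SelV`; `c1 = c - cobV P` vanishes on `Ine ψ`.  For `σ ∈ Dec ψ` `σ1 = σ σ0 σ⁻¹ ∈ Ine ψ` (`τ τ0 τ⁻¹`
acts trivially modulo the maximal ideal; automorphisms preserve the norm) and `χ_D(σ1) = -1` (`S_CHI`), so `c1(σ σ0) = c1(σ)` and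
`c1(σ σ0) = c1(σ1 σ) = c1(σ1) + χ_D(σ1) c1(σ) = - c1(σ)`.  So `c1(σ) = 0` (`ℚ_2` has characteristic 0), and `c σ = cobV P σ` for all `σ ∈ Dec ψ`. -/
def S_SLV : Prop := ∀ (F : Type) [Field F] [NumberField F] (n : ℕ) (ρ : GF F →* GL (Fin n) ℤ_[2]),
  AdV ρ → ∃ B1 : ℕ, B1 ≠ 0 ∧ ∀ B : ℕ, B1 ∣ B → B ≠ 0 → ∀ D : F, ∀ c ∈ SelV ρ B D,
    (fun σ => mkW ρ (c σ)) ∈ SelZ (WV ρ) B D

/-- JOB FDV. The dimension (from `S_WAD`, `S_LAT`, `S_NOL`, `S_SLV`).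
Proof.  Enough: if `c_1, .., c_m ∈ SelV ρ B D` are linearly independent modulo the coboundaries, then `2^m ≤ sel2 (WV ρ) B D` (so `m` is bounded, `HV` is
finite-dimensional, and take a basis).  `Λ` = the set of the `a ∈ ℚ_2^m` such that the class of `mkW ∘ ∑ a_i c_i` in `Sel (WV ρ) B D` (`S_SLV`) is zero: there is a
`Q` with `∑ a_i c_i σ - cobV Q σ ∈ lat n` for all `σ` (`mkW` is surjective and compatible with the coboundaries).  `GF F` is compact, so the `c_i` are bounded, and `2^N c_i` has values in `lat n` for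
some `N`: first hypothesis of `S_LAT`.  Second hypothesis: `S_NOL` and the independence.  `ℚ_2^m/Λ` embeds in `Sel (WV ρ) B D`, so by
`S_LAT` there are at least `2^m` elements killed by 2. -/
def S_FDV : Prop := ∀ (F : Type) [Field F] [NumberField F] (n : ℕ) (ρ : GF F →* GL (Fin n) ℤ_[2]),
  AdV ρ → ∃ B1 : ℕ, B1 ≠ 0 ∧ ∀ B : ℕ, B1 ∣ B → B ≠ 0 → ∀ D : F, Finite (Sel2 (WV ρ) B D) →
    FiniteDimensional ℚ_[2] (HV ρ B D) ∧ 2 ^ rkV ρ B D ≤ sel2 (WV ρ) B D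

/-- JOB RKM. Dependence on `B` and `D` (from `S_CHI`): `SelV ρ B D ≤ SelV ρ B' D` for `B ∣ B'`, so `HV ρ B D` embeds in `HV ρ B' D`; `chi (D u²) = chi D`. -/
def S_RKM : Prop := ∀ (F : Type) [Field F] [NumberField F] (n : ℕ) (ρ : GF F →* GL (Fin n) ℤ_[2])
  (B B' : ℕ) (D : F), B ∣ B' → B' ≠ 0 → FiniteDimensional ℚ_[2] (HV ρ B' D) →
    FiniteDimensional ℚ_[2] (HV ρ B D) ∧ rkV ρ B D ≤ rkV ρ B' D

end Pool.Agent.Q161.ESV
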